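import Mathlib

set_option autoImplicit false
open Filter Topology Metric
open scoped InnerProductSpace

namespace Pool.Agent.Helper197.Ess

variable {H : Type*} [NormedAddCommGroup H] [InnerProductSpace ℂ H] [CompleteSpace H]

/-- invertible modulo compact operators -/
def EInv (A : H →L[ℂ] H) : Prop :=
  ∃ S : H →L[ℂ] H, IsCompactOperator (⇑(S * A - 1)) ∧ IsCompactOperator (⇑(A * S - 1))

/-- bounded sequences have convergent images along a subsequence -/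
lemma subseq_of_compact {K : H →L[ℂ] H} (hK : IsCompactOperator (⇑K)) (x : ℕ → H) (B : ℝ)
    (hx : ∀ n, ‖x n‖ ≤ B) :
    ∃ (y : H) (φ : ℕ → ℕ), StrictMono φ ∧ Tendsto (fun n => K (x (φ n))) atTop (𝓝 y) := by
  have hc := hK.isCompact_closure_image_closedBall (𝕜₁ := ℂ) B
  have hmem : ∀ n, K (x n) ∈ closure (⇑K '' closedBall 0 B) := by
    intro n
    apply subset_closure
    exact ⟨x n, by simpa using hx n, rfl⟩
  obtain ⟨y, -, φ, hφ, h⟩ := hc.tendsto_subseq hmem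
  exact ⟨y, φ, hφ, h⟩

/-- an injective operator with a left inverse modulo compacts is bounded below -/
lemma bddBelow_of_inj (A S : H →L[ℂ] H) (hS : IsCompactOperator (⇑(S * A - 1)))
    (hinj : ∀ x, A x = 0 → x = 0) : ∃ c : ℝ, 0 < c ∧ ∀ x, c * ‖x‖ ≤ ‖A x‖ := by
  by_contra hcon
  push Not at hcon
  have h1 : ∀ n : ℕ, ∃ x : H, ‖x‖ = 1 ∧ ‖A x‖ ≤ 1 / ((n : ℝ) + 1) := by
    intro n
    obtain ⟨x, hx⟩ := hcon (1 / ((n : ℝ) + 1)) (by positivity)
    have hx0 : x ≠ 0 := by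
      rintro rfl
      simp at hx
    have hxn : 0 < ‖x‖ := norm_pos_iff.mpr hx0
    refine ⟨((‖x‖⁻¹ : ℝ) : ℂ) • x, ?_, ?_⟩
    · rw [norm_smul, Complex.norm_real, norm_inv, norm_norm]
      field_simp
    · rw [map_smul, norm_smul, Complex.norm_real, norm_inv, norm_norm]
      rw [inv_mul_le_iff₀ hxn]
      linarith
  choose x hx1 hx2 using h1
  obtain ⟨y, φ, hφ, hy⟩ := subseq_of_compact hS x 1 (fun n => (hx1 n).le)
  have hA0 : Tendsto (fun n => A (x (φ n))) atTop (𝓝 0) := by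
    apply squeeze_zero_norm (fun n => hx2 (φ n))
    exact tendsto_one_div_add_atTop_nhds_zero_nat.comp hφ.tendsto_atTop
  have hSA : Tendsto (fun n => S (A (x (φ n)))) atTop (𝓝 0) := by
    have := (S.continuous.tendsto 0).comp hA0
    rwa [map_zero] at this
  have hxlim : Tendsto (fun n => x (φ n)) atTop (𝓝 (0 - y)) := by
    have h2 := hSA.sub hy
    refine h2.congr fun n => ?_
    show S (A (x (φ n))) - (S (A (x (φ n))) - x (φ n)) = x (φ n)
    abel
  have hn : ‖(0 : H) - y‖ = 1 := by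
    refine tendsto_nhds_unique hxlim.norm ?_
    simp [hx1]
  have hA : A (0 - y) = 0 := tendsto_nhds_unique ((A.continuous.tendsto _).comp hxlim) hA0
  have := hinj _ hA
  rw [this, norm_zero] at hn
  exact zero_ne_one hn

lemma finDim_of_right (A S : H →L[ℂ] H) (hS : IsCompactOperator (⇑(A * S - 1)))
    (W : Submodule ℂ H) (hWc : IsClosed (W : Set H)) (horth : ∀ g ∈ W, ∀ x, ⟪g, A x⟫_ℂ = 0) :
    FiniteDimensional ℂ W := by
  have : CompleteSpace W := hWc.completeSpace_coe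
  have hcomp : IsCompactOperator (⇑(W.orthogonalProjectionOnto ∘L (A * S - 1) ∘L W.subtypeL)) :=
    (hS.comp_clm W.subtypeL).clm_comp W.orthogonalProjectionOnto
  have heq : (⇑(W.orthogonalProjectionOnto ∘L (A * S - 1) ∘L W.subtypeL)) = -(id : W → W) := by
    funext x
    show W.orthogonalProjectionOnto ((A * S - 1) x) = -x
    apply ext_inner_left ℂ
    intro g
    have h1 : ⟪g, W.orthogonalProjectionOnto ((A * S - 1) x)⟫_ℂ = ⟪(g : H), (A * S - 1) x⟫_ℂ := by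
      rw [Submodule.inner_orthogonalProjectionOnto_eq_of_mem_left]
    rw [h1, inner_neg_right]
    show ⟪(g : H), A (S x) - x⟫_ℂ = _
    rw [inner_sub_right, horth g g.2, zero_sub]
    rfl
  rw [heq] at hcomp
  have h2 := hcomp.neg
  rw [neg_neg] at h2
  exact (isCompactOperator_id_iff_finiteDimensional (𝕜 := ℂ)).mp h2

lemma range_closed (A : H →L[ℂ] H) (c : ℝ) (hc : 0 < c) (hb : ∀ x, c * ‖x‖ ≤ ‖A x‖) :
    IsClosed ((LinearMap.range (A : H →ₗ[ℂ] H) : Submodule ℂ H) : Set H) := by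
  have ha : AntilipschitzWith (Real.toNNReal c⁻¹) A := by
    apply ContinuousLinearMap.antilipschitz_of_bound
    intro x
    rw [Real.coe_toNNReal _ (by positivity)]
    rw [← div_eq_inv_mul, le_div_iff₀ hc]
    linarith [hb x]
  have h1 := ha.isClosed_range A.uniformContinuous
  have h2 : ((LinearMap.range (A : H →ₗ[ℂ] H) : Submodule ℂ H) : Set H) = Set.range ⇑A := by
    ext y
    simp
  rw [h2]
  exact h1

lemma mem_range_of_orth (A : H →L[ℂ] H) (c : ℝ) (hc : 0 < c) (hb : ∀ x, c * ‖x‖ ≤ ‖A x‖) (y : H)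
    (hy : ∀ g : H, (∀ x, ⟪g, A x⟫_ℂ = 0) → ⟪g, y⟫_ℂ = 0) : ∃ x, A x = y := by
  set R : Submodule ℂ H := LinearMap.range (A : H →ₗ[ℂ] H) with hR
  have hcl := range_closed A c hc hb
  have : CompleteSpace R := hcl.completeSpace_coe
  have h1 : y ∈ Rᗮᗮ := by
    rw [Submodule.mem_orthogonal]
    intro g hg
    apply hy
    intro x
    rw [Submodule.mem_orthogonal'] at hg
    exact hg (A x) ⟨x, rfl⟩
  rw [Submodule.orthogonal_orthogonal] at h1
  exact h1

lemma isUnit_of (A : H →L[ℂ] H) (c : ℝ) (hc : 0 < c) (hb : ∀ x, c * ‖x‖ ≤ ‖A x‖)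
    (hg : ∀ g : H, (∀ x, ⟪g, A x⟫_ℂ = 0) → g = 0) : IsUnit A := by
  rw [ContinuousLinearMap.isUnit_iff_bijective]
  constructor
  · intro x y hxy
    have h1 := hb (x - y)
    rw [map_sub, hxy, sub_self, norm_zero] at h1
    have h2 : ‖x - y‖ ≤ 0 := by
      by_contra h
      push Not at h
      nlinarith
    exact sub_eq_zero.mp (norm_le_zero_iff.mp h2)
  · intro y
    apply mem_range_of_orth A c hc hb
    intro g h
    rw [hg g h, inner_zero_left]

/-- nontrivial combinations in the range -/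
lemma exists_comb (A S : H →L[ℂ] H) (hS : IsCompactOperator (⇑(A * S - 1))) (c : ℝ) (hc : 0 < c)
    (hb : ∀ x, c * ‖x‖ ≤ ‖A x‖) :
    ∃ k : ℕ, ∀ F : Fin (k + 1) → H, ∃ α : Fin (k + 1) → ℂ, α ≠ 0 ∧ ∃ G : H,
      A G = ∑ l, α l • F l := by
  set R : Submodule ℂ H := LinearMap.range (A : H →ₗ[ℂ] H) with hR
  have hW : FiniteDimensional ℂ Rᗮ := by
    apply finDim_of_right A S hS Rᗮ R.isClosed_orthogonal
    intro g hg x
    rw [Submodule.mem_orthogonal'] at hg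
    exact hg (A x) ⟨x, rfl⟩
  have : CompleteSpace (Rᗮ : Submodule ℂ H) := R.isClosed_orthogonal.completeSpace_coe
  obtain ⟨k, hk⟩ : ∃ k, k = Module.finrank ℂ Rᗮ := ⟨_, rfl⟩
  refine ⟨k, fun F => ?_⟩
  have hdep : ¬ LinearIndependent ℂ (fun l : Fin (k + 1) => Rᗮ.orthogonalProjectionOnto (F l)) := by
    intro hli
    have := hli.fintype_card_le_finrank
    rw [Fintype.card_fin] at this
    omega
  rw [Fintype.linearIndependent_iff] at hdep
  push Not at hdep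
  obtain ⟨α, hα, i, hi⟩ := hdep
  refine ⟨α, fun h => hi (by rw [h]; rfl), ?_⟩
  apply mem_range_of_orth A c hc hb
  intro g hg
  have hgR : g ∈ Rᗮ := by
    rw [Submodule.mem_orthogonal']
    rintro _ ⟨x, rfl⟩
    exact hg x
  have h1 : Rᗮ.orthogonalProjectionOnto (∑ l, α l • F l) = 0 := by
    rw [map_sum]
    simpa using hα
  have h2 := Submodule.inner_orthogonalProjectionOnto_eq_of_mem_left (K := Rᗮ) ⟨g, hgR⟩ (∑ l, α l • F l)
  rw [h1] at h2
  have h3 : ⟪g, ∑ l, α l • F l⟫_ℂ = ⟪((⟨g, hgR⟩ : Rᗮ) : H), ∑ l, α l • F l⟫_ℂ := rfl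
  rw [h3, ← h2]
  simp

/-- stability of non-surjectivity -/
lemma exists_orth_near (A : H →L[ℂ] H) (c : ℝ) (hc : 0 < c) (hb : ∀ x, c * ‖x‖ ≤ ‖A x‖)
    (hA : ¬ IsUnit A) (t : ℂ) (ht : ‖t‖ < c / 2) :
    ∃ g : H, g ≠ 0 ∧ ∀ x, ⟪g, (A - t • 1) x⟫_ℂ = 0 := by
  by_contra hcon
  push Not at hcon
  have hb' : ∀ x, (c / 2) * ‖x‖ ≤ ‖(A - t • (1 : H →L[ℂ] H)) x‖ := by
    intro x
    have h1 := hb x
    have h2 : ‖A x‖ - ‖t • x‖ ≤ ‖A x - t • x‖ := norm_sub_norm_le _ _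
    rw [norm_smul] at h2
    have h3 : (A - t • (1 : H →L[ℂ] H)) x = A x - t • x := rfl
    rw [h3]
    nlinarith [norm_nonneg x]
  have hu : IsUnit (A - t • (1 : H →L[ℂ] H)) := by
    apply isUnit_of _ (c / 2) (by positivity) hb'
    intro g hg
    by_contra hne
    obtain ⟨x, hx⟩ := hcon g hne
    exact hx (hg x)
  obtain ⟨u, hu⟩ := hu
  apply hA
  -- A = u + t
  have hinv : ‖(↑u⁻¹ : H →L[ℂ] H)‖ ≤ (c / 2)⁻¹ := by
    apply ContinuousLinearMap.opNorm_le_bound _ (by positivity)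
    intro y
    have h1 := hb' ((↑u⁻¹ : H →L[ℂ] H) y)
    rw [← hu] at h1
    have h2 : (↑u : H →L[ℂ] H) ((↑u⁻¹ : H →L[ℂ] H) y) = y := by
      have := u.mul_inv
      have h3 : ((↑u : H →L[ℂ] H) * (↑u⁻¹ : H →L[ℂ] H)) y = y := by rw [this]; rfl
      exact h3
    rw [h2] at h1
    rw [← div_eq_inv_mul, le_div_iff₀ (by positivity)]
    linarith
  have hlt : ‖(-(t • (1 : H →L[ℂ] H)) * (↑u⁻¹ : H →L[ℂ] H))‖ < 1 := by
    calc ‖(-(t • (1 : H →L[ℂ] H)) * (↑u⁻¹ : H →L[ℂ] H))‖ = ‖t • (↑u⁻¹ : H →L[ℂ] H)‖ := by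
          rw [neg_mul, norm_neg, smul_mul_assoc, one_mul]
      _ = ‖t‖ * ‖(↑u⁻¹ : H →L[ℂ] H)‖ := norm_smul _ _
      _ ≤ ‖t‖ * (c / 2)⁻¹ := by gcongr
      _ < 1 := by
          rw [← div_eq_mul_inv, div_lt_one (by positivity)]
          exact ht
  have h4 : A = (1 - (-(t • (1 : H →L[ℂ] H)) * (↑u⁻¹ : H →L[ℂ] H))) * ↑u := by
    rw [sub_mul, mul_assoc, Units.inv_mul, mul_one, one_mul, hu]
    simp
  rw [h4]
  exact ((Units.oneSub _ hlt).isUnit).mul u.isUnit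

end Pool.Agent.Helper197.Ess
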