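import Pool.Agent.Helper76.Hardy
import Pool.Agent.Helper197.Ess.FA

set_option autoImplicit false
open Filter Topology Metric
open scoped InnerProductSpace

namespace Pool.Agent.Helper197.Ess
open Pool.Agent.Helper76.Hardy

lemma ev_shift (a : ℕ → ℂ) (B : ℝ) (hB : ∀ n, ‖a n‖ ≤ B) (i : ℕ) (h0 : ∀ j < i, a j = 0) (z : ℂ)
    (hz : ‖z‖ < 1) : ev a z = z ^ i * ev (fun n => a (n + i)) z := by
  have hs := ev_summable a B hB z hz
  unfold ev
  rw [← hs.sum_add_tsum_nat_add i, ← tsum_mul_left]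
  rw [Finset.sum_eq_zero, zero_add]
  · apply tsum_congr
    intro n
    rw [pow_add]
    ring
  · intro j hj
    rw [h0 j (Finset.mem_range.mp hj), zero_mul]

lemma ev_sub_zero (a : ℕ → ℂ) (B : ℝ) (hB : ∀ n, ‖a n‖ ≤ B) (z : ℂ) (hz : ‖z‖ < 1) :
    ‖ev a z - a 0‖ ≤ ‖z‖ * (B * (1 - ‖z‖)⁻¹) := by
  have hs := ev_summable a B hB z hz
  have h1 : ev a z - a 0 = z * ev (fun n => a (n + 1)) z := by
    unfold ev
    rw [← hs.sum_add_tsum_nat_add 1, ← tsum_mul_left]
    simp only [Finset.range_one, Finset.sum_singleton, pow_zero, mul_one, add_sub_cancel_left]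
    apply tsum_congr
    intro n
    rw [pow_succ]
    ring
  rw [h1, norm_mul]
  apply mul_le_mul_of_nonneg_left _ (norm_nonneg _)
  have hs' := ev_summable (fun n => a (n + 1)) B (fun n => hB _) z hz
  apply le_of_tendsto hs'.hasSum.tendsto_sum_nat.norm
  filter_upwards with N
  exact ev_bound (fun n => a (n + 1)) B (fun n => hB _) z hz N

lemma ev_tendsto_zero (a : ℕ → ℂ) (B : ℝ) (hB : ∀ n, ‖a n‖ ≤ B) :
    Tendsto (ev a) (𝓝 0) (𝓝 (a 0)) := by
  rw [tendsto_iff_norm_sub_tendsto_zero]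
  have h1 : Tendsto (fun z : ℂ => ‖z‖ * (B * (1 - ‖z‖)⁻¹)) (𝓝 0) (𝓝 0) := by
    have : ContinuousAt (fun z : ℂ => ‖z‖ * (B * (1 - ‖z‖)⁻¹)) 0 := by
      apply ContinuousAt.mul continuous_norm.continuousAt
      apply ContinuousAt.mul continuousAt_const
      apply ContinuousAt.inv₀
      · exact (continuous_const.sub continuous_norm).continuousAt
      · simp
    have h2 := this.tendsto
    simpa using h2
  apply squeeze_zero' (Eventually.of_forall fun _ => norm_nonneg _) _ h1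
  have : ball (0 : ℂ) 1 ∈ 𝓝 (0 : ℂ) := ball_mem_nhds _ one_pos
  filter_upwards [this] with z hz
  exact ev_sub_zero a B hB z (by simpa using hz)

lemma ev_div_tendsto (a : ℕ → ℂ) (B : ℝ) (hB : ∀ n, ‖a n‖ ≤ B) (i : ℕ) (h0 : ∀ j < i, a j = 0) :
    Tendsto (fun z => ev a z / z ^ i) (𝓝[≠] 0) (𝓝 (a i)) := by
  have h1 := ev_tendsto_zero (fun n => a (n + i)) B (fun n => hB _)
  rw [zero_add] at h1
  have h2 := h1.mono_left (nhdsWithin_le_nhds (s := {0}ᶜ))
  refine h2.congr' ?_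
  have h3 : ball (0 : ℂ) 1 ∈ 𝓝[≠] (0 : ℂ) := mem_nhdsWithin_of_mem_nhds (ball_mem_nhds _ one_pos)
  filter_upwards [h3, self_mem_nhdsWithin] with z hz hz0
  rw [ev_shift a B hB i h0 z (by simpa using hz)]
  have : z ≠ 0 := hz0
  field_simp

section
variable {φ : ℂ → ℂ} {T : HH →L[ℂ] HH}

lemma comp_div_tendsto (hd : DifferentiableOn ℂ φ (ball (0 : ℂ) 1))
    (hm : ∀ z : ℂ, ‖z‖ < 1 → ‖φ z‖ < 1) (h0 : φ 0 = 0)
    (hT : ∀ (a : HH) (z : ℂ), ‖z‖ < 1 → ev (T a) z = ev a (φ z))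
    (a : HH) (i : ℕ) (ha : ∀ j < i, a j = 0) :
    Tendsto (fun z => ev (T a) z / z ^ i) (𝓝[≠] 0) (𝓝 ((deriv φ 0) ^ i * a i)) := by
  have hda : DifferentiableAt ℂ φ 0 := hd.differentiableAt (ball_mem_nhds _ one_pos)
  have hslope : Tendsto (fun z => φ z / z) (𝓝[≠] 0) (𝓝 (deriv φ 0)) := by
    have h1 := hda.hasDerivAt.tendsto_slope
    refine h1.congr' ?_
    filter_upwards with z
    rw [slope_def_field, h0, sub_zero, sub_zero]
  have hφ0 : Tendsto φ (𝓝[≠] 0) (𝓝 0) := by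
    have := hda.continuousAt.tendsto
    rw [h0] at this
    exact this.mono_left nhdsWithin_le_nhds
  have h2 := (ev_tendsto_zero (fun n => a (n + i)) ‖a‖ (fun n => coord_le a _)).comp hφ0
  rw [zero_add] at h2
  refine ((hslope.pow i).mul h2).congr' ?_
  have h3 : ball (0 : ℂ) 1 ∈ 𝓝[≠] (0 : ℂ) := mem_nhdsWithin_of_mem_nhds (ball_mem_nhds _ one_pos)
  filter_upwards [h3, self_mem_nhdsWithin] with z hz hz0
  have hz' : ‖z‖ < 1 := by simpa using hz
  rw [hT a z hz', ev_shift a ‖a‖ (coord_le a) i ha (φ z) (hm z hz')]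
  simp only [Function.comp]
  have : z ≠ 0 := hz0
  rw [div_pow]
  field_simp

/-- composition operators are lower triangular -/
lemma low_coeff (hd : DifferentiableOn ℂ φ (ball (0 : ℂ) 1))
    (hm : ∀ z : ℂ, ‖z‖ < 1 → ‖φ z‖ < 1) (h0 : φ 0 = 0)
    (hT : ∀ (a : HH) (z : ℂ), ‖z‖ < 1 → ev (T a) z = ev a (φ z))
    (a : HH) (i : ℕ) (ha : ∀ j < i, a j = 0) :
    (∀ j < i, T a j = 0) ∧ T a i = (deriv φ 0) ^ i * a i := by
  have hlow : ∀ j < i, T a j = 0 := by
    intro j
    induction j using Nat.strong_induction_on with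
    | _ j ih =>
      intro hj
      have h1 := ev_div_tendsto (T a) ‖T a‖ (coord_le (T a)) j (fun l hl => ih l hl (hl.trans hj))
      have h2 := comp_div_tendsto hd hm h0 hT a i ha
      have h3 : Tendsto (fun z : ℂ => z ^ (i - j)) (𝓝[≠] 0) (𝓝 0) := by
        have : Tendsto (fun z : ℂ => z ^ (i - j)) (𝓝 0) (𝓝 (0 ^ (i - j))) :=
          (continuous_pow (i - j)).tendsto 0
        rw [zero_pow (by omega)] at this
        exact this.mono_left nhdsWithin_le_nhds
      have h4 := h3.mul h2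
      rw [zero_mul] at h4
      refine tendsto_nhds_unique h1 (h4.congr' ?_)
      filter_upwards [self_mem_nhdsWithin] with z hz0
      have hz0' : z ≠ 0 := hz0
      have : z ^ i = z ^ (i - j) * z ^ j := by
        rw [← pow_add]
        congr 1
        omega
      rw [this]
      field_simp
  refine ⟨hlow, ?_⟩
  exact tendsto_nhds_unique (ev_div_tendsto (T a) ‖T a‖ (coord_le (T a)) i hlow)
    (comp_div_tendsto hd hm h0 hT a i ha)

lemma exists_least (a : HH) (ha : a ≠ 0) : ∃ i, a i ≠ 0 ∧ ∀ j < i, a j = 0 := by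
  classical
  have h : ∃ i, a i ≠ 0 := by
    by_contra hcon
    push Not at hcon
    apply ha
    ext i
    exact hcon i
  refine ⟨Nat.find h, Nat.find_spec h, fun j hj => ?_⟩
  have := Nat.find_min h hj
  push Not at this
  exact this

/-- the operator `T - μ` is injective unless `μ` is a power of the multiplier -/
lemma inj_of (hd : DifferentiableOn ℂ φ (ball (0 : ℂ) 1))
    (hm : ∀ z : ℂ, ‖z‖ < 1 → ‖φ z‖ < 1) (h0 : φ 0 = 0)
    (hT : ∀ (a : HH) (z : ℂ), ‖z‖ < 1 → ev (T a) z = ev a (φ z))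
    (μ : ℂ) (hμ : ∀ n : ℕ, μ ≠ (deriv φ 0) ^ n) (a : HH) (ha : T a - μ • a = 0) : a = 0 := by
  by_contra hne
  obtain ⟨i, hi, hlt⟩ := exists_least a hne
  have h1 := (low_coeff hd hm h0 hT a i hlt).2
  have h2 : T a i = μ * a i := by
    rw [sub_eq_zero.mp ha]
    rfl
  rw [h2] at h1
  exact hμ i (mul_right_cancel₀ hi h1)

/-- preimages of functions of high order have high order -/
lemma order_of_preimage (hd : DifferentiableOn ℂ φ (ball (0 : ℂ) 1))
    (hm : ∀ z : ℂ, ‖z‖ < 1 → ‖φ z‖ < 1) (h0 : φ 0 = 0)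
    (hT : ∀ (a : HH) (z : ℂ), ‖z‖ < 1 → ev (T a) z = ev a (φ z))
    (μ : ℂ) (hμ : ∀ n : ℕ, μ ≠ (deriv φ 0) ^ n) (G : HH) (N : ℕ)
    (hG : ∀ n < N, (T G - μ • G) n = 0) : ∀ n < N, G n = 0 := by
  by_cases hG0 : G = 0
  · intro n _
    rw [hG0]
    rfl
  obtain ⟨i, hi, hlt⟩ := exists_least G hG0
  have hiN : N ≤ i := by
    by_contra hcon
    push Not at hcon
    have h1 := (low_coeff hd hm h0 hT G i hlt).2
    have h2 := hG i hcon
    have h3 : T G i - μ * G i = 0 := h2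
    rw [h1, ← sub_mul] at h3
    rcases mul_eq_zero.mp h3 with h | h
    · exact hμ i (sub_eq_zero.mp h).symm
    · exact hi h
  intro n hn
  exact hlt n (hn.trans_le hiN)

/-- eigenfunctionals do not live on finitely many coefficients -/
lemma exists_coord (hd : DifferentiableOn ℂ φ (ball (0 : ℂ) 1))
    (hm : ∀ z : ℂ, ‖z‖ < 1 → ‖φ z‖ < 1) (h0 : φ 0 = 0)
    (hT : ∀ (a : HH) (z : ℂ), ‖z‖ < 1 → ev (T a) z = ev a (φ z))
    (μ : ℂ) (hμ : ∀ n : ℕ, μ ≠ (deriv φ 0) ^ n) (g : HH) (hg : g ≠ 0)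
    (horth : ∀ x, ⟪g, (T - μ • 1) x⟫_ℂ = 0) (N : ℕ) : ∃ n, N ≤ n ∧ g n ≠ 0 := by
  classical
  by_contra hcon
  push Not at hcon
  obtain ⟨i, hi, -⟩ := exists_least g hg
  -- the largest index with a nonzero coefficient
  have hfin : ∃ j, g j ≠ 0 ∧ ∀ l, j < l → g l = 0 := by
    have hs : ((Finset.range N).filter (fun n => g n ≠ 0)).Nonempty := by
      refine ⟨i, ?_⟩
      rw [Finset.mem_filter, Finset.mem_range]
      refine ⟨?_, hi⟩
      by_contra h
      push Not at h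
      exact hi (hcon i h)
    refine ⟨((Finset.range N).filter (fun n => g n ≠ 0)).max' hs, ?_, ?_⟩
    · have := Finset.max'_mem _ hs
      exact (Finset.mem_filter.mp this).2
    · intro l hl
      by_contra hne
      have hlN : l < N := by
        by_contra h
        push Not at h
        exact hne (hcon l h)
      have hmem : l ∈ (Finset.range N).filter (fun n => g n ≠ 0) :=
        Finset.mem_filter.mpr ⟨Finset.mem_range.mpr hlN, hne⟩
      have := Finset.le_max' _ l hmem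
      omega
  obtain ⟨j, hj, hjl⟩ := hfin
  set e : HH := lp.single 2 j (1 : ℂ) with he
  have he0 : ∀ l < j, e l = 0 := by
    intro l hl
    rw [he, lp.single_apply_ne _ _ _ hl.ne]
  have hej : e j = 1 := by
    rw [he, lp.single_apply_self]
  obtain ⟨h1, h2⟩ := low_coeff hd hm h0 hT e j he0
  have h3 := horth e
  rw [lp.inner_eq_tsum, tsum_eq_single j] at h3
  · have h4 : ((T - μ • (1 : HH →L[ℂ] HH)) e) j = (deriv φ 0) ^ j - μ := by
      show T e j - μ * e j = _
      rw [h2, hej]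
      ring
    rw [RCLike.inner_apply, h4] at h3
    rcases mul_eq_zero.mp h3 with h | h
    · exact hμ j (sub_eq_zero.mp h).symm
    · exact hj ((map_eq_zero _).mp h)
  · intro l hl
    rw [RCLike.inner_apply]
    rcases lt_or_gt_of_ne hl with h | h
    · have h5 : ((T - μ • (1 : HH →L[ℂ] HH)) e) l = 0 := by
        show T e l - μ * e l = _
        rw [h1 l h, he0 l h]
        ring
      rw [h5, zero_mul]
    · rw [hjl l h, map_zero, mul_zero]

end
end Pool.Agent.Helper197.Ess
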