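import Pool.Agent.Helper197.Ess.Zero
import Pool.Agent.Helper76.Pick

set_option autoImplicit false
open Filter Topology Metric
open scoped InnerProductSpace

namespace Pool.Agent.Helper197.Ess
open Pool.Agent.Helper76.Hardy Pool.Agent.Helper76.Pick

section
variable {H : Type*} [NormedAddCommGroup H] [InnerProductSpace ℂ H] [CompleteSpace H]

/-- similarity -/
lemma einv_conj (A B B' : H →L[ℂ] H) (h1 : B * B' = 1) (h2 : B' * B = 1) (hA : EInv A) :
    EInv (B' * A * B) := by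
  obtain ⟨S, hS1, hS2⟩ := hA
  refine ⟨B' * S * B, ?_, ?_⟩
  · have : B' * S * B * (B' * A * B) - 1 = B' * (S * A - 1) * B := by
      rw [mul_sub, sub_mul, mul_one, h2]
      calc B' * S * B * (B' * A * B) - 1 = B' * S * (B * B') * A * B - 1 := by
            simp only [mul_assoc]
        _ = _ := by rw [h1, mul_one]; simp only [mul_assoc]
    rw [this]
    exact (hS1.comp_clm B).clm_comp B'
  · have : B' * A * B * (B' * S * B) - 1 = B' * (A * S - 1) * B := by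
      rw [mul_sub, sub_mul, mul_one, h2]
      calc B' * A * B * (B' * S * B) - 1 = B' * A * (B * B') * S * B - 1 := by
            simp only [mul_assoc]
        _ = _ := by rw [h1, mul_one]; simp only [mul_assoc]
    rw [this]
    exact (hS2.comp_clm B).clm_comp B'

lemma conj_sub (T B B' : H →L[ℂ] H) (h2 : B' * B = 1) (μ : ℂ) :
    B' * T * B - μ • (1 : H →L[ℂ] H) = B' * (T - μ • 1) * B := by
  rw [mul_sub, sub_mul, mul_smul_comm, mul_one, smul_mul_assoc, h2]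

lemma einv_conj_iff (T B B' : H →L[ℂ] H) (h1 : B * B' = 1) (h2 : B' * B = 1) (μ : ℂ) :
    EInv (B' * T * B - μ • (1 : H →L[ℂ] H)) ↔ EInv (T - μ • (1 : H →L[ℂ] H)) := by
  rw [conj_sub T B B' h2]
  constructor
  · intro h
    have h3 := einv_conj _ B' B h2 h1 h
    have h4 : B * (B' * (T - μ • (1 : H →L[ℂ] H)) * B) * B' = T - μ • 1 := by
      calc B * (B' * (T - μ • (1 : H →L[ℂ] H)) * B) * B'
          = (B * B') * (T - μ • 1) * (B * B') := by simp only [mul_assoc]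
        _ = _ := by rw [h1, one_mul, mul_one]
    rwa [h4] at h3
  · exact einv_conj _ B B' h1 h2

lemma unit_conj_iff (T B B' : H →L[ℂ] H) (h1 : B * B' = 1) (h2 : B' * B = 1) (μ : ℂ) :
    IsUnit (B' * T * B - μ • (1 : H →L[ℂ] H)) ↔ IsUnit (T - μ • (1 : H →L[ℂ] H)) := by
  rw [conj_sub T B B' h2]
  let u : (H →L[ℂ] H)ˣ := ⟨B, B', h1, h2⟩
  have h3 : B' * (T - μ • (1 : H →L[ℂ] H)) * B = ↑u⁻¹ * (T - μ • (1 : H →L[ℂ] H)) * ↑u := rfl
  rw [h3, Units.isUnit_mul_units, Units.isUnit_units_mul]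

end

lemma deriv_mob_neg_zero (ω : ℂ) (hω : ‖ω‖ < 1) :
    HasDerivAt (mob (-ω)) (1 - (starRingEnd ℂ) ω * ω) 0 := by
  have h1 : HasDerivAt (fun z : ℂ => z - (-ω)) 1 0 := (hasDerivAt_id (0 : ℂ)).sub_const _
  have h2 : HasDerivAt (fun z : ℂ => 1 - (starRingEnd ℂ) (-ω) * z) (-((starRingEnd ℂ) (-ω))) 0 := by
    have h3 := ((hasDerivAt_id (0 : ℂ)).const_mul ((starRingEnd ℂ) (-ω))).const_sub 1
    simpa using h3
  have h4 := h1.fun_div h2 (by simp)
  have h5 : HasDerivAt (mob (-ω)) _ 0 := h4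
  convert h5 using 1
  simp
  ring

lemma deriv_mob_self (ω : ℂ) (hω : ‖ω‖ < 1) :
    HasDerivAt (mob ω) (1 - (starRingEnd ℂ) ω * ω)⁻¹ ω := by
  have hne := one_sub_ne hω hω
  have h1 : HasDerivAt (fun z : ℂ => z - ω) 1 ω := (hasDerivAt_id ω).sub_const _
  have h2 : HasDerivAt (fun z : ℂ => 1 - (starRingEnd ℂ) ω * z) (-((starRingEnd ℂ) ω)) ω := by
    have h3 := ((hasDerivAt_id ω).const_mul ((starRingEnd ℂ) ω)).const_sub 1
    simpa using h3
  have h4 := h1.fun_div h2 hne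
  have h5 : HasDerivAt (mob ω) _ ω := h4
  convert h5 using 1
  field_simp
  ring

/-- Q1 in general -/
theorem q1 (φ : ℂ → ℂ) (hd : DifferentiableOn ℂ φ (ball (0 : ℂ) 1))
    (hmaps : Set.MapsTo φ (ball (0 : ℂ) 1) (ball (0 : ℂ) 1))
    (hna : ¬ Set.BijOn φ (ball (0 : ℂ) 1) (ball (0 : ℂ) 1))
    (ω : ℂ) (hω : ω ∈ ball (0 : ℂ) 1) (hfix : φ ω = ω)
    (T : HH →L[ℂ] HH) (hT : ∀ (a : HH) (z : ℂ), ‖z‖ < 1 → ev (T a) z = ev a (φ z)) :
    (∀ μ : ℂ, μ ≠ 0 → (∀ n : ℕ, μ ≠ (deriv φ ω) ^ n) → EInv (T - μ • (1 : HH →L[ℂ] HH)) →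
      IsUnit (T - μ • (1 : HH →L[ℂ] HH))) ∧
    ∀ r : ℝ, 0 ≤ r →
      spectrum ℂ T = closedBall 0 r ∪ {μ | ∃ n : ℕ, 1 ≤ n ∧ μ = (deriv φ ω) ^ n} ∪ {1} →
      {μ : ℂ | ¬ EInv (T - μ • (1 : HH →L[ℂ] HH))} = closedBall 0 r := by
  have hω' : ‖ω‖ < 1 := by simpa using hω
  have hωn : ‖-ω‖ < 1 := by rwa [norm_neg]
  have hm : ∀ z : ℂ, ‖z‖ < 1 → ‖φ z‖ < 1 := by
    intro z hz
    have := hmaps (show z ∈ ball (0 : ℂ) 1 by simpa using hz)
    simpa using this
  have hmob1 : ∀ z : ℂ, ‖z‖ < 1 → mob ω (mob (-ω) z) = z := by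
    intro z hz
    have := mob_inv (a := -ω) hωn hz
    rwa [neg_neg] at this
  have hmob2 : ∀ z : ℂ, ‖z‖ < 1 → mob (-ω) (mob ω z) = z := fun z hz => mob_inv hω' hz
  have hmapsB : ∀ a : ℂ, ‖a‖ < 1 → Set.MapsTo (mob a) (ball (0 : ℂ) 1) (ball (0 : ℂ) 1) := by
    intro a ha z hz
    rw [mem_ball_zero_iff] at hz ⊢
    exact mob_lt ha hz
  obtain ⟨B, hB⟩ := Pool.Agent.Helper203.Hardy.exists_comp (mob_diff hω') (hmapsB ω hω')
  obtain ⟨B', hB'⟩ := Pool.Agent.Helper203.Hardy.exists_comp (mob_diff hωn) (hmapsB (-ω) hωn)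
  have hBe : ∀ (a : HH) (z : ℂ), ‖z‖ < 1 → ev (B a) z = ev a (mob ω z) := by
    intro a z hz
    exact hB a z (by simpa using hz)
  have hBe' : ∀ (a : HH) (z : ℂ), ‖z‖ < 1 → ev (B' a) z = ev a (mob (-ω) z) := by
    intro a z hz
    exact hB' a z (by simpa using hz)
  have hBB' : B * B' = 1 := by
    ext1 a
    apply Pool.Agent.Helper203.Hardy.ev_injective
    intro z hz
    have hz' : ‖z‖ < 1 := by simpa using hz
    have h1 : ev (B (B' a)) z = ev a z := by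
      rw [hBe _ z hz', hBe' _ _ (mob_lt hω' hz'), hmob2 z hz']
    exact h1
  have hB'B : B' * B = 1 := by
    ext1 a
    apply Pool.Agent.Helper203.Hardy.ev_injective
    intro z hz
    have hz' : ‖z‖ < 1 := by simpa using hz
    have h1 : ev (B' (B a)) z = ev a z := by
      rw [hBe' _ z hz', hBe _ _ (mob_lt hωn hz'), hmob1 z hz']
    exact h1
  -- the conjugated symbol
  set χ : ℂ → ℂ := fun z => mob ω (φ (mob (-ω) z)) with hχ
  set T' : HH →L[ℂ] HH := B' * T * B with hT'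
  have hχd : DifferentiableOn ℂ χ (ball (0 : ℂ) 1) := by
    apply (mob_diff hω').comp (hd.comp (mob_diff hωn) (hmapsB (-ω) hωn))
    intro z hz
    exact hmaps (hmapsB (-ω) hωn hz)
  have hχm : ∀ z : ℂ, ‖z‖ < 1 → ‖χ z‖ < 1 := by
    intro z hz
    exact mob_lt hω' (hm _ (mob_lt hωn hz))
  have hχ0 : χ 0 = 0 := by
    show mob ω (φ (mob (-ω) 0)) = 0
    rw [mob_zero, hfix, mob_self]
  have hχT : ∀ (a : HH) (z : ℂ), ‖z‖ < 1 → ev (T' a) z = ev a (χ z) := by
    intro a z hz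
    show ev (B' (T (B a))) z = _
    rw [hBe' _ z hz, hT _ _ (mob_lt hωn hz), hBe _ _ (hm _ (mob_lt hωn hz))]
  have hχderiv : deriv χ 0 = deriv φ ω := by
    have h1 := deriv_mob_neg_zero ω hω'
    have h2 : HasDerivAt φ (deriv φ ω) (mob (-ω) 0) := by
      rw [mob_zero]
      exact (hd.differentiableAt (isOpen_ball.mem_nhds hω)).hasDerivAt
    have h3 : HasDerivAt (mob ω) (1 - (starRingEnd ℂ) ω * ω)⁻¹ (φ (mob (-ω) 0)) := by
      rw [mob_zero, hfix]
      exact deriv_mob_self ω hω'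
    have h4 := h3.comp (0 : ℂ) (h2.comp (0 : ℂ) h1)
    have h5 : HasDerivAt χ _ 0 := h4
    rw [h5.deriv]
    have hne := one_sub_ne hω' hω'
    field_simp
  have hχs : ∀ z : ℂ, ‖z‖ < 1 → z ≠ 0 → ‖χ z‖ < ‖z‖ := by
    intro z hz hz0
    have hmapsχ : Set.MapsTo χ (ball (0 : ℂ) 1) (closedBall (χ 0) 1) := by
      intro ζ hζ
      rw [hχ0, mem_closedBall_zero_iff]
      exact (hχm ζ (by simpa using hζ)).le
    have hle : ‖χ z‖ ≤ ‖z‖ := by
      apply Complex.norm_le_norm_of_mapsTo_ball hχd _ hχ0 hz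
      intro ζ hζ
      rw [mem_closedBall_zero_iff]
      exact (hχm ζ (by simpa using hζ)).le
    refine lt_of_le_of_ne hle ?_
    intro heq
    have hzb : z ∈ ball (0 : ℂ) 1 := by simpa using hz
    have h1 : ‖dslope χ 0 z‖ = 1 / 1 := by
      rw [dslope_of_ne _ hz0, slope_def_field, hχ0, sub_zero, sub_zero, norm_div, heq,
        div_self (norm_ne_zero_iff.mpr hz0)]
      norm_num
    obtain ⟨C, hC, hg⟩ := Complex.affine_of_mapsTo_ball_of_exists_norm_dslope_eq_div'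
      hχd hmapsχ ⟨z, hzb, h1⟩
    have hC1 : ‖C‖ = 1 := by rw [hC]; norm_num
    have hC0 : C ≠ 0 := by
      intro h
      rw [h, norm_zero] at hC1
      exact zero_ne_one hC1
    have hrot : ∀ ζ : ℂ, ‖ζ‖ < 1 → χ ζ = ζ * C := by
      intro ζ hζ
      have h2 := hg (show ζ ∈ ball (0 : ℂ) 1 by simpa using hζ)
      simp only at h2
      rw [h2, hχ0, zero_add, sub_zero, smul_eq_mul]
    apply hna
    refine ⟨hmaps, ?_, ?_⟩
    · intro x hx y hy hxy
      have hx' : ‖x‖ < 1 := by simpa using hx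
      have hy' : ‖y‖ < 1 := by simpa using hy
      have h2 : χ (mob ω x) = χ (mob ω y) := by
        show mob ω (φ (mob (-ω) (mob ω x))) = mob ω (φ (mob (-ω) (mob ω y)))
        rw [hmob2 x hx', hmob2 y hy', hxy]
      rw [hrot _ (mob_lt hω' hx'), hrot _ (mob_lt hω' hy')] at h2
      have h3 := mul_right_cancel₀ hC0 h2
      rw [← hmob2 x hx', h3, hmob2 y hy']
    · intro y hy
      have hy' : ‖y‖ < 1 := by simpa using hy
      have hw : ‖mob ω y / C‖ < 1 := by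
        rw [norm_div, hC1, div_one]
        exact mob_lt hω' hy'
      refine ⟨mob (-ω) (mob ω y / C), ?_, ?_⟩
      · rw [mem_ball_zero_iff]
        exact mob_lt hωn hw
      · have h2 : χ (mob ω y / C) = mob ω y := by
          rw [hrot _ hw, div_mul_cancel₀ _ hC0]
        have h3 : mob ω (φ (mob (-ω) (mob ω y / C))) = mob ω y := h2
        have h4 := congrArg (mob (-ω)) h3
        rwa [hmob2 _ (hm _ (mob_lt hωn hw)), hmob2 y hy'] at h4
  constructor
  · intro μ hμ0 hμ hE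
    have h1 := thmA hχd hχm hχ0 hχs hχT μ hμ0 (by rw [hχderiv]; exact hμ)
      ((einv_conj_iff T B B' hBB' hB'B μ).mpr hE)
    exact (unit_conj_iff T B B' hBB' hB'B μ).mp h1
  · intro r hr hspec
    have h1 := q1_zero hχd hχm hχ0 hχs hχT r hr (by
      rw [hχderiv, ← hspec]
      ext μ
      rw [mem_spec_iff, mem_spec_iff, unit_conj_iff T B B' hBB' hB'B μ])
    rw [← h1]
    ext μ
    show ¬ _ ↔ ¬ _
    rw [einv_conj_iff T B B' hBB' hB'B μ]

end Pool.Agent.Helper197.Ess
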