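import Pool.Agent.Helper197.Ess.Coef

set_option autoImplicit false
open Filter Topology Metric
open scoped InnerProductSpace

namespace Pool.Agent.Helper197.Ess
open Pool.Agent.Helper76.Hardy

/-- solution of a lower triangular system -/
noncomputable def gg (t : ℕ → ℕ → ℂ) (F : ℕ → ℂ) (μ : ℂ) : ℕ → ℂ
  | j => (F j - ∑ i : Fin j, t j i * gg t F μ i) / (t j j - μ)
termination_by j => j
decreasing_by exact i.2

lemma gg_eq (t : ℕ → ℕ → ℂ) (F : ℕ → ℂ) (μ : ℂ) (j : ℕ) :
    gg t F μ j = (F j - ∑ i ∈ Finset.range j, t j i * gg t F μ i) / (t j j - μ) := by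
  rw [gg, Finset.sum_range]

lemma gg_unique (t : ℕ → ℕ → ℂ) (F : ℕ → ℂ) (μ : ℂ) (hμ : ∀ j, t j j ≠ μ) (G : ℕ → ℂ)
    (hG : ∀ j, ∑ i ∈ Finset.range (j + 1), t j i * G i - μ * G j = F j) (j : ℕ) :
    G j = gg t F μ j := by
  induction j using Nat.strong_induction_on with
  | _ j ih =>
    rw [gg_eq]
    have h1 := hG j
    rw [Finset.sum_range_succ] at h1
    have h2 : ∑ i ∈ Finset.range j, t j i * gg t F μ i = ∑ i ∈ Finset.range j, t j i * G i :=
      Finset.sum_congr rfl fun i hi => by rw [ih i (Finset.mem_range.mp hi)]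
    rw [h2, eq_div_iff (sub_ne_zero.mpr (hμ j))]
    linear_combination h1

lemma gg_solves (t : ℕ → ℕ → ℂ) (F : ℕ → ℂ) (μ : ℂ) (hμ : ∀ j, t j j ≠ μ) (j : ℕ) :
    ∑ i ∈ Finset.range (j + 1), t j i * gg t F μ i - μ * gg t F μ j = F j := by
  rw [Finset.sum_range_succ]
  have h1 := gg_eq t F μ j
  rw [eq_div_iff (sub_ne_zero.mpr (hμ j))] at h1
  linear_combination h1

lemma gg_diff (t : ℕ → ℕ → ℂ) (F : ℕ → ℂ) (μ : ℂ) (hμ : ∀ j, t j j ≠ μ) (j : ℕ) :
    DifferentiableAt ℂ (fun μ => gg t F μ j) μ := by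
  induction j using Nat.strong_induction_on with
  | _ j ih =>
    have h1 : (fun μ => gg t F μ j)
        = fun μ => (F j - ∑ i ∈ Finset.range j, t j i * gg t F μ i) / (t j j - μ) := by
      funext μ
      exact gg_eq t F μ j
    rw [h1]
    apply DifferentiableAt.fun_div
    · apply DifferentiableAt.fun_sub (differentiableAt_const _)
      apply DifferentiableAt.fun_sum
      intro i hi
      exact (ih i (Finset.mem_range.mp hi)).const_mul _
    · fun_prop
    · exact sub_ne_zero.mpr (hμ j)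

/-- matrix form of a lower triangular operator -/
lemma tri_apply (A : HH →L[ℂ] HH)
    (htri : ∀ (a : HH) (i : ℕ), (∀ j < i, a j = 0) → ∀ j < i, A a j = 0) (G : HH) (j : ℕ) :
    A G j = ∑ i ∈ Finset.range (j + 1), A (lp.single 2 i (1 : ℂ)) j * G i := by
  set P : HH := ∑ i ∈ Finset.range (j + 1), G i • (lp.single 2 i (1 : ℂ) : HH) with hP
  have hPn : ∀ n < j + 1, P n = G n := by
    intro n hn
    rw [hP, lp.coeFn_sum, Finset.sum_apply, Finset.sum_eq_single n]
    · simp
    · intro i _ hi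
      rw [lp.coeFn_smul, Pi.smul_apply, lp.single_apply_ne _ _ _ hi.symm, smul_zero]
    · intro h
      exact absurd (Finset.mem_range.mpr hn) h
  have h1 : A (G - P) j = 0 := by
    apply htri (G - P) (j + 1) _ j (Nat.lt_succ_self j)
    intro n hn
    rw [lp.coeFn_sub, Pi.sub_apply, hPn n hn, sub_self]
  have h2 : A G j = A P j := by
    rw [map_sub, lp.coeFn_sub, Pi.sub_apply] at h1
    exact sub_eq_zero.mp h1
  rw [h2, hP, map_sum, lp.coeFn_sum, Finset.sum_apply]
  apply Finset.sum_congr rfl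
  intro i _
  rw [map_smul, lp.coeFn_smul, Pi.smul_apply, smul_eq_mul]
  ring

lemma sum_sq_le (G : HH) (J : ℕ) : ∑ j ∈ Finset.range J, ‖G j‖ ^ 2 ≤ ‖G‖ ^ 2 := by
  rw [norm_sq_eq_tsum]
  exact (summable_sq G).sum_le_tsum _ (fun _ _ => by positivity)

lemma exists_of_sum_le (g : ℕ → ℂ) (B : ℝ) (h : ∀ J, ∑ j ∈ Finset.range J, ‖g j‖ ^ 2 ≤ B) :
    ∃ G : HH, ∀ j, G j = g j := by
  have hmem : Memℓp g 2 := by
    apply memℓp_gen' (C := B)
    intro s
    obtain ⟨N, hN⟩ := s.exists_nat_subset_range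
    simp only [ENNReal.toReal_ofNat, Real.rpow_ofNat]
    exact (Finset.sum_le_sum_of_subset_of_nonneg hN (fun _ _ _ => by positivity)).trans (h N)
  exact ⟨⟨g, hmem⟩, fun _ => rfl⟩

lemma norm_trunc (g : ℕ → ℂ) (J : ℕ) :
    ‖∑ j ∈ Finset.range J, (g j) • (lp.single 2 j (1 : ℂ) : HH)‖ ^ 2
      = ∑ j ∈ Finset.range J, ‖g j‖ ^ 2 := by
  have h1 := lp.norm_sum_single (E := fun _ : ℕ => ℂ) (p := 2) (by norm_num) g (Finset.range J)
  simp only [ENNReal.toReal_ofNat, Real.rpow_ofNat] at h1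
  rw [← h1]
  congr 2
  apply Finset.sum_congr rfl
  intro j _
  rw [← lp.single_smul, smul_eq_mul, mul_one]

/-- invertibility on a circle gives invertibility in the centre for lower triangular operators
whose diagonal avoids the disc -/
lemma iso_center (A : HH →L[ℂ] HH) (μ0 : ℂ) (ρ : ℝ) (hρ : 0 < ρ)
    (htri : ∀ (a : HH) (i : ℕ), (∀ j < i, a j = 0) → ∀ j < i, A a j = 0)
    (hdiag : ∀ j, ρ < ‖A (lp.single 2 j (1 : ℂ)) j - μ0‖)
    (hcirc : ∀ μ : ℂ, ‖μ - μ0‖ = ρ → IsUnit (A - μ • (1 : HH →L[ℂ] HH))) :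
    IsUnit (A - μ0 • (1 : HH →L[ℂ] HH)) := by
  -- uniform bound on the circle
  obtain ⟨M, hM⟩ : ∃ M : ℝ, ∀ μ ∈ sphere μ0 ρ, ‖Ring.inverse (A - μ • (1 : HH →L[ℂ] HH))‖ ≤ M := by
    have hc : ContinuousOn (fun μ : ℂ => Ring.inverse (A - μ • (1 : HH →L[ℂ] HH))) (sphere μ0 ρ) := by
      intro μ hμ
      have hu := hcirc μ (by simpa [dist_eq_norm] using hμ)
      obtain ⟨u, hu⟩ := hu
      have h1 : ContinuousAt Ring.inverse (A - μ • (1 : HH →L[ℂ] HH)) := by
        rw [← hu]
        exact NormedRing.inverse_continuousAt u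
      have h2 : ContinuousAt (fun μ : ℂ => A - μ • (1 : HH →L[ℂ] HH)) μ := by fun_prop
      exact (ContinuousAt.comp (f := fun μ : ℂ => A - μ • (1 : HH →L[ℂ] HH)) h1 h2).continuousWithinAt
    obtain ⟨M, hM⟩ := (isCompact_sphere μ0 ρ).exists_bound_of_continuousOn hc
    exact ⟨M, hM⟩
  set t : ℕ → ℕ → ℂ := fun j i => A (lp.single 2 i (1 : ℂ)) j with ht
  have hne : ∀ μ ∈ closedBall μ0 ρ, ∀ j, t j j ≠ μ := by
    intro μ hμ j h
    have h1 := hdiag j
    have h2 : A (lp.single 2 j (1 : ℂ)) j = μ := h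
    rw [h2] at h1
    rw [mem_closedBall, dist_eq_norm] at hμ
    linarith
  have hcenter : μ0 ∈ closedBall μ0 ρ := mem_closedBall_self hρ.le
  rw [ContinuousLinearMap.isUnit_iff_bijective]
  constructor
  · -- injective
    rw [← ContinuousLinearMap.coe_coe, ← LinearMap.ker_eq_bot, LinearMap.ker_eq_bot']
    intro a ha
    by_contra hne0
    obtain ⟨i, hi, hlt⟩ := exists_least a hne0
    have h1 : A a i - μ0 * a i = 0 := by
      have : ((A - μ0 • (1 : HH →L[ℂ] HH)) a) i = 0 := by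
        have h2 : (A - μ0 • (1 : HH →L[ℂ] HH)) a = 0 := ha
        rw [h2]
        rfl
      exact this
    rw [tri_apply A htri a i, Finset.sum_range_succ, Finset.sum_eq_zero, zero_add, ← sub_mul] at h1
    · rcases mul_eq_zero.mp h1 with h | h
      · exact hne μ0 hcenter i (sub_eq_zero.mp h)
      · exact hi h
    · intro k hk
      rw [hlt k (Finset.mem_range.mp hk), mul_zero]
  · intro F
    -- the bound at the centre
    have hb : ∀ J, ∑ j ∈ Finset.range J, ‖gg t F μ0 j‖ ^ 2 ≤ (M * ‖F‖) ^ 2 := by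
      intro J
      set q : ℂ → HH := fun μ => ∑ j ∈ Finset.range J, (gg t F μ j) • (lp.single 2 j (1 : ℂ) : HH)
        with hq
      have hqd : DiffContOnCl ℂ q (ball μ0 ρ) := by
        apply DifferentiableOn.diffContOnCl
        rw [closure_ball μ0 hρ.ne']
        intro μ hμ
        apply DifferentiableAt.differentiableWithinAt
        rw [hq]
        apply DifferentiableAt.fun_sum
        intro j _
        exact (gg_diff t F μ (hne μ hμ) j).smul_const _
      have hfr : ∀ μ ∈ frontier (ball μ0 ρ), ‖q μ‖ ≤ M * ‖F‖ := by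
        intro μ hμ
        rw [frontier_ball μ0 hρ.ne'] at hμ
        obtain ⟨u, hu⟩ := hcirc μ (by simpa [dist_eq_norm] using hμ)
        have hinv : Ring.inverse (A - μ • (1 : HH →L[ℂ] HH)) = ↑u⁻¹ := by
          rw [← hu, Ring.inverse_unit]
        set G : HH := (↑u⁻¹ : HH →L[ℂ] HH) F with hG
        have hGF : A G - μ • G = F := by
          have h1 : ((↑u : HH →L[ℂ] HH) * (↑u⁻¹ : HH →L[ℂ] HH)) F = F := by
            rw [u.mul_inv]
            rfl
          have h2 : (A - μ • (1 : HH →L[ℂ] HH)) G = F := by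
            rw [← hu]
            exact h1
          exact h2
        have hGn : ‖G‖ ≤ M * ‖F‖ := by
          have h1 := hM μ hμ
          rw [hinv] at h1
          exact ((↑u⁻¹ : HH →L[ℂ] HH).le_opNorm F).trans (by gcongr)
        have hμc : μ ∈ closedBall μ0 ρ := sphere_subset_closedBall hμ
        have hGg : ∀ j, G j = gg t F μ j := by
          apply gg_unique t F μ (hne μ hμc)
          intro j
          have h1 : A G j - μ * G j = F j := by
            rw [← hGF]
            rfl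
          rw [tri_apply A htri G j] at h1
          exact h1
        have h2 : ‖q μ‖ ^ 2 ≤ (M * ‖F‖) ^ 2 := by
          rw [hq]
          simp only
          rw [norm_trunc]
          simp_rw [← hGg]
          exact (sum_sq_le G J).trans (pow_le_pow_left₀ (norm_nonneg _) hGn 2)
        have h3 : 0 ≤ M * ‖F‖ := (norm_nonneg _).trans hGn
        exact (sq_le_sq₀ (norm_nonneg _) h3).mp h2
      have h4 := Complex.norm_le_of_forall_mem_frontier_norm_le isBounded_ball hqd hfr
        (z := μ0) (subset_closure (mem_ball_self hρ))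
      have h5 : ‖q μ0‖ ^ 2 ≤ (M * ‖F‖) ^ 2 := pow_le_pow_left₀ (norm_nonneg _) h4 2
      rw [hq] at h5
      simp only at h5
      rwa [norm_trunc] at h5
    obtain ⟨G, hG⟩ := exists_of_sum_le (gg t F μ0) _ hb
    refine ⟨G, ?_⟩
    ext j
    show A G j - μ0 * G j = F j
    rw [tri_apply A htri G j]
    have h1 := gg_solves t F μ0 (hne μ0 hcenter) j
    rw [hG j]
    simp_rw [hG]
    exact h1

end Pool.Agent.Helper197.Ess
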