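import Pool.Agent.Helper197.Ess.Coef
import Pool.Agent.Helper742.BdH

set_option autoImplicit false
open Filter Topology Metric
open scoped InnerProductSpace

namespace Pool.Agent.Helper197.Ess
open Pool.Agent.Helper76.Hardy

section
variable {φ : ℂ → ℂ} {T : HH →L[ℂ] HH}

lemma lam_lt (hd : DifferentiableOn ℂ φ (ball (0 : ℂ) 1)) (h0 : φ 0 = 0)
    (hs : ∀ z : ℂ, ‖z‖ < 1 → z ≠ 0 → ‖φ z‖ < ‖z‖) : ‖deriv φ 0‖ < 1 := by
  have hsub : closedBall (0 : ℂ) (1 / 2) ⊆ ball (0 : ℂ) 1 := closedBall_subset_ball (by norm_num)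
  have hcont : ContinuousOn (fun z => ‖φ z‖) (closedBall (0 : ℂ) (1 / 2)) :=
    (hd.continuousOn.mono hsub).norm
  obtain ⟨z0, hz0, hmax⟩ := (isCompact_closedBall (0 : ℂ) (1 / 2)).exists_isMaxOn
    ⟨0, by simp⟩ hcont
  have hz0' : ‖z0‖ ≤ 1 / 2 := by simpa using hz0
  have hlt : ‖φ z0‖ < 1 / 2 := by
    rcases eq_or_ne z0 0 with h | h
    · rw [h, h0, norm_zero]
      norm_num
    · exact (hs z0 (by linarith) h).trans_le hz0'
  set R : ℝ := (‖φ z0‖ + 1 / 2) / 2 with hR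
  have hR1 : ‖φ z0‖ < R := by rw [hR]; linarith
  have hR2 : R < 1 / 2 := by rw [hR]; linarith
  have hmaps : Set.MapsTo φ (ball (0 : ℂ) (1 / 2)) (closedBall (φ 0) R) := by
    intro z hz
    rw [h0, mem_closedBall_zero_iff]
    exact ((hmax (ball_subset_closedBall hz)).trans_lt hR1).le
  have h1 := Complex.norm_deriv_le_div_of_mapsTo_ball
    (hd.mono (ball_subset_closedBall.trans hsub)) hmaps (by norm_num)
  refine h1.trans_lt ?_
  rw [div_lt_one (by norm_num)]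
  exact hR2

lemma dist_pow_pos (lam μ : ℂ) (hlam : ‖lam‖ < 1) (hμ0 : μ ≠ 0) (hμ : ∀ n : ℕ, μ ≠ lam ^ n) :
    ∃ δ : ℝ, 0 < δ ∧ ∀ n : ℕ, δ ≤ ‖lam ^ n - μ‖ := by
  have hlim : Tendsto (fun n : ℕ => ‖lam ^ n - μ‖) atTop (𝓝 ‖(0 : ℂ) - μ‖) :=
    ((tendsto_pow_atTop_nhds_zero_of_norm_lt_one hlam).sub_const μ).norm
  have hpos : ‖μ‖ / 2 < ‖(0 : ℂ) - μ‖ := by
    rw [zero_sub, norm_neg]
    have := norm_pos_iff.mpr hμ0
    linarith
  obtain ⟨N, hN⟩ := eventually_atTop.mp (hlim.eventually (lt_mem_nhds hpos))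
  -- the minimum over the first N terms
  have hfin : ∃ δ : ℝ, 0 < δ ∧ ∀ n < N, δ ≤ ‖lam ^ n - μ‖ := by
    clear hN
    induction N with
    | zero => exact ⟨1, one_pos, fun n hn => absurd hn (Nat.not_lt_zero n)⟩
    | succ N ih =>
      obtain ⟨δ, hδ, h⟩ := ih
      have hN : 0 < ‖lam ^ N - μ‖ := norm_pos_iff.mpr (sub_ne_zero.mpr (hμ N).symm)
      refine ⟨min δ ‖lam ^ N - μ‖, lt_min hδ hN, fun n hn => ?_⟩
      rcases Nat.lt_succ_iff_lt_or_eq.mp hn with h' | h'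
      · exact (min_le_left _ _).trans (h n h')
      · rw [h']
        exact min_le_right _ _
  obtain ⟨δ, hδ, h⟩ := hfin
  refine ⟨min δ (‖μ‖ / 2), lt_min hδ (by have := norm_pos_iff.mpr hμ0; positivity), fun n => ?_⟩
  rcases lt_or_ge n N with h' | h'
  · exact (min_le_left _ _).trans (h n h')
  · exact (min_le_right _ _).trans (hN n h').le

lemma iter_maps (hm : ∀ z : ℂ, ‖z‖ < 1 → ‖φ z‖ < 1) (m : ℕ) (z : ℂ) (hz : ‖z‖ < 1) :
    ‖φ^[m] z‖ < 1 := by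
  induction m with
  | zero => exact hz
  | succ m ih =>
    rw [Function.iterate_succ_apply']
    exact hm _ ih

lemma ev_pow (hm : ∀ z : ℂ, ‖z‖ < 1 → ‖φ z‖ < 1)
    (hT : ∀ (a : HH) (z : ℂ), ‖z‖ < 1 → ev (T a) z = ev a (φ z)) (m : ℕ) (a : HH) (z : ℂ)
    (hz : ‖z‖ < 1) : ev ((T ^ m) a) z = ev a (φ^[m] z) := by
  induction m generalizing z with
  | zero => rfl
  | succ m ih =>
    have h1 : (T ^ (m + 1)) a = T ((T ^ m) a) := by
      rw [pow_succ']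
      rfl
    rw [h1, hT _ z hz, ih (φ z) (hm z hz), ← Function.iterate_succ_apply]

lemma ev_single (n : ℕ) (z : ℂ) : ev (lp.single 2 n (1 : ℂ) : HH) z = z ^ n := by
  unfold ev
  rw [tsum_eq_single n]
  · simp
  · intro k hk
    rw [lp.single_apply_ne _ _ _ hk, zero_mul]

/-- Theorem A: away from the powers of the multiplier, a translate of a composition operator that
is invertible modulo compacts is invertible. -/
theorem thmA (hd : DifferentiableOn ℂ φ (ball (0 : ℂ) 1))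
    (hm : ∀ z : ℂ, ‖z‖ < 1 → ‖φ z‖ < 1) (h0 : φ 0 = 0)
    (hs : ∀ z : ℂ, ‖z‖ < 1 → z ≠ 0 → ‖φ z‖ < ‖z‖)
    (hT : ∀ (a : HH) (z : ℂ), ‖z‖ < 1 → ev (T a) z = ev a (φ z))
    (μ : ℂ) (hμ0 : μ ≠ 0) (hμ : ∀ n : ℕ, μ ≠ (deriv φ 0) ^ n)
    (hE : EInv (T - μ • (1 : HH →L[ℂ] HH))) : IsUnit (T - μ • (1 : HH →L[ℂ] HH)) := by
  obtain ⟨S, hS1, hS2⟩ := hE
  have hinj : ∀ x, (T - μ • (1 : HH →L[ℂ] HH)) x = 0 → x = 0 := by
    intro x hx
    exact inj_of hd hm h0 hT μ hμ x hx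
  obtain ⟨c, hc, hb⟩ := bddBelow_of_inj _ S hS1 hinj
  obtain ⟨k, hk⟩ := exists_comb _ S hS2 c hc hb
  by_contra hnu
  have hlam := lam_lt hd h0 hs
  obtain ⟨δ, hδ, hδn⟩ := dist_pow_pos (deriv φ 0) μ hlam hμ0 hμ
  have hμn : 0 < ‖μ‖ := norm_pos_iff.mpr hμ0
  -- perturbed point
  obtain ⟨ε, hε0, hε1, hε2⟩ : ∃ ε : ℝ, 0 < ε ∧ ε * ‖μ‖ < c / 2 ∧ ε * ‖μ‖ < δ := by
    refine ⟨min (c / 2) δ / (2 * ‖μ‖), by positivity, ?_, ?_⟩
    · have h1 : min (c / 2) δ / (2 * ‖μ‖) * ‖μ‖ = min (c / 2) δ / 2 := by field_simp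
      rw [h1]
      have := min_le_left (c / 2) δ
      have h3 : 0 < min (c / 2) δ := lt_min (by positivity) hδ
      linarith
    · have h1 : min (c / 2) δ / (2 * ‖μ‖) * ‖μ‖ = min (c / 2) δ / 2 := by field_simp
      rw [h1]
      have := min_le_right (c / 2) δ
      have h3 : 0 < min (c / 2) δ := lt_min (by positivity) hδ
      linarith
  set t : ℂ := (ε : ℂ) * μ with ht
  have htn : ‖t‖ = ε * ‖μ‖ := by
    rw [ht, norm_mul, Complex.norm_real, Real.norm_eq_abs, abs_of_pos hε0]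
  obtain ⟨g, hg0, hg⟩ := exists_orth_near _ c hc hb hnu t (by rw [htn]; exact hε1)
  set μ' : ℂ := μ + t with hμ'
  have hTμ' : ∀ x, (T - μ • (1 : HH →L[ℂ] HH) - t • (1 : HH →L[ℂ] HH)) x
      = (T - μ' • (1 : HH →L[ℂ] HH)) x := by
    intro x
    show T x - μ • x - t • x = T x - μ' • x
    rw [hμ', add_smul]
    abel
  have hμ'n : ‖μ'‖ = (1 + ε) * ‖μ‖ := by
    have : μ' = ((1 + ε : ℝ) : ℂ) * μ := by
      rw [hμ', ht]
      push_cast
      ring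
    rw [this, norm_mul, Complex.norm_real, Real.norm_eq_abs, abs_of_pos (by positivity)]
  have hμ'lam : ∀ n : ℕ, μ' ≠ (deriv φ 0) ^ n := by
    intro n hn
    have h1 := hδn n
    rw [← hn, hμ', add_sub_cancel_left, htn] at h1
    linarith
  have hM : ‖μ‖ < ‖μ'‖ := by
    rw [hμ'n]
    nlinarith
  -- a high power
  obtain ⟨N, hN⟩ : ∃ N : ℕ, ‖deriv φ 0‖ ^ N < ‖μ‖ := exists_pow_lt_of_lt_one hμn hlam
  obtain ⟨n, hnN, hgn⟩ := exists_coord hd hm h0 hT μ' hμ'lam g hg0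
    (fun x => by rw [← hTμ' x]; exact hg x) (N + 1)
  have hn : ‖deriv φ 0‖ ^ n < ‖μ‖ :=
    (pow_le_pow_of_le_one (norm_nonneg _) hlam.le (by omega)).trans_lt hN
  obtain ⟨C, θ, hθ0, hθM, havg⟩ := Pool.Agent.Helper742.Bd.core φ hd hm h0 hs T hT μ hμ0 k c hc
    (by
      intro A F hF
      obtain ⟨α, hα, G, hG⟩ := hk F
      have hG' : T G - μ • G = ∑ l, α l • F l := hG
      refine ⟨α, hα, G, ?_, hG', hb G⟩
      apply order_of_preimage hd hm h0 hT μ hμ G A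
      intro n hn
      rw [hG']
      have : ((∑ l, α l • F l : HH) : ℕ → ℂ) n = ∑ l, α l * F l n := by
        rw [lp.coeFn_sum, Finset.sum_apply]
        rfl
      rw [this]
      apply Finset.sum_eq_zero
      intro l _
      rw [hF l n hn, mul_zero])
    ‖μ'‖ hM n (by omega) hn
  -- the norms of the powers
  set e : HH := lp.single 2 n (1 : ℂ) with he
  have hnorm : ∀ m : ℕ, ‖(T ^ m) e‖ ^ 2 ≤ C * θ ^ (2 * m) := by
    intro m
    apply norm_le_of_avg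
    intro ρ hρ0 hρ1
    have hcongr : Set.EqOn (fun z => ‖ev ((T ^ m) e) z‖ ^ 2) (fun z => ‖φ^[m] z‖ ^ (2 * n))
        (sphere (0 : ℂ) |ρ|) := by
      intro z hz
      have hz1 : ‖z‖ < 1 := by
        have : ‖z‖ = |ρ| := by simpa using hz
        rw [this, abs_of_nonneg hρ0]
        exact hρ1
      simp only
      rw [ev_pow hm hT m e z hz1, he, ev_single, norm_pow, ← pow_mul, mul_comm n 2]
    rw [Real.circleAverage_congr_sphere hcongr]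
    exact havg m ρ hρ0 hρ1
  have hinner1 : ∀ x : HH, ⟪g, T x⟫_ℂ = μ' * ⟪g, x⟫_ℂ := by
    intro x
    have h1 := hg x
    rw [hTμ' x] at h1
    have h2 : (T - μ' • (1 : HH →L[ℂ] HH)) x = T x - μ' • x := rfl
    rw [h2, inner_sub_right, inner_smul_right, sub_eq_zero] at h1
    exact h1
  have hinner : ∀ m : ℕ, ⟪g, (T ^ m) e⟫_ℂ = μ' ^ m * ⟪g, e⟫_ℂ := by
    intro m
    induction m with
    | zero => simp
    | succ m ih =>
      have h1 : (T ^ (m + 1)) e = T ((T ^ m) e) := by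
        rw [pow_succ']
        rfl
      rw [h1, hinner1, ih, pow_succ]
      ring
  have hge : ‖⟪g, e⟫_ℂ‖ = ‖g n‖ := by
    rw [he, lp.inner_single_right, RCLike.inner_apply, one_mul, RCLike.norm_conj]
  have hpos : 0 < ‖μ'‖ := hμn.trans hM
  have hkey : ∀ m : ℕ, ‖g n‖ ^ 2 ≤ ‖g‖ ^ 2 * C * ((θ / ‖μ'‖) ^ 2) ^ m := by
    intro m
    have h1 : ‖μ'‖ ^ m * ‖g n‖ ≤ ‖g‖ * ‖(T ^ m) e‖ := by
      have h2 := norm_inner_le_norm (𝕜 := ℂ) g ((T ^ m) e)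
      rw [hinner m, norm_mul, norm_pow, hge] at h2
      exact h2
    have h3 : (‖μ'‖ ^ m * ‖g n‖) ^ 2 ≤ ‖g‖ ^ 2 * (C * θ ^ (2 * m)) := by
      calc (‖μ'‖ ^ m * ‖g n‖) ^ 2 ≤ (‖g‖ * ‖(T ^ m) e‖) ^ 2 := by
            apply pow_le_pow_left₀ (by positivity) h1
        _ = ‖g‖ ^ 2 * ‖(T ^ m) e‖ ^ 2 := by ring
        _ ≤ ‖g‖ ^ 2 * (C * θ ^ (2 * m)) := by
            apply mul_le_mul_of_nonneg_left (hnorm m) (by positivity)
    have h4 : (‖μ'‖ ^ m * ‖g n‖) ^ 2 = (‖μ'‖ ^ 2) ^ m * ‖g n‖ ^ 2 := by ring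
    rw [h4] at h3
    have h5 : ‖g‖ ^ 2 * C * ((θ / ‖μ'‖) ^ 2) ^ m
        = (‖g‖ ^ 2 * (C * θ ^ (2 * m))) / (‖μ'‖ ^ 2) ^ m := by
      rw [div_pow, div_pow]
      ring
    rw [h5, le_div_iff₀ (by positivity)]
    linarith
  have hlim : Tendsto (fun m : ℕ => ‖g‖ ^ 2 * C * ((θ / ‖μ'‖) ^ 2) ^ m) atTop (𝓝 0) := by
    have h1 : (θ / ‖μ'‖) ^ 2 < 1 := by
      have h2 : θ / ‖μ'‖ < 1 := (div_lt_one hpos).mpr hθM
      have h3 : 0 ≤ θ / ‖μ'‖ := by positivity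
      nlinarith
    have h2 := (tendsto_pow_atTop_nhds_zero_of_lt_one (by positivity) h1).const_mul (‖g‖ ^ 2 * C)
    rwa [mul_zero] at h2
  have hle : ‖g n‖ ^ 2 ≤ 0 := ge_of_tendsto' hlim hkey
  have : 0 < ‖g n‖ := norm_pos_iff.mpr hgn
  nlinarith [pow_pos this 2]

end
end Pool.Agent.Helper197.Ess
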