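import Pool.Agent.Helper197.Ess.Iso
import Pool.Agent.Helper197.Ess.ThmA
import Pool.Agent.Helper203.Comp

set_option autoImplicit false
open Filter Topology Metric
open scoped InnerProductSpace

namespace Pool.Agent.Helper197.Ess
open Pool.Agent.Helper76.Hardy

/-- the `N`-th power of the shift -/
noncomputable def W (N : ℕ) : HH →L[ℂ] HH := Pool.Agent.Helper203.Hardy.Mz ^ N

/-- its adjoint -/
noncomputable def Ws (N : ℕ) : HH →L[ℂ] HH := ContinuousLinearMap.adjoint (W N)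

lemma W_norm (N : ℕ) (f : HH) : ‖W N f‖ = ‖f‖ := Pool.Agent.Helper203.Hardy.Mz_pow_norm N f

lemma W_ev (N : ℕ) (f : HH) (z : ℂ) (hz : ‖z‖ < 1) : ev (W N f) z = z ^ N * ev f z :=
  Pool.Agent.Helper203.Hardy.ev_Mz_pow f N hz

lemma Ws_apply (N : ℕ) (f : HH) (n : ℕ) : Ws N f n = f (N + n) :=
  Pool.Agent.Helper203.Hardy.adj_Mz_pow f N n

lemma Ws_W (N : ℕ) (f : HH) : Ws N (W N f) = f := by
  apply ext_inner_left ℂ
  intro g
  rw [Ws, ContinuousLinearMap.adjoint_inner_right]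
  have h : (W N : HH →L[ℂ] HH).adjoint ∘L (W N) = 1 := by
    rw [← ContinuousLinearMap.norm_map_iff_adjoint_comp_self]
    exact W_norm N
  have h2 : ⟪W N g, W N f⟫_ℂ = ⟪g, ((W N : HH →L[ℂ] HH).adjoint ∘L (W N)) f⟫_ℂ := by
    rw [ContinuousLinearMap.comp_apply, ContinuousLinearMap.adjoint_inner_right]
  rw [h2, h]
  rfl

lemma W_low (N : ℕ) (f : HH) (j : ℕ) (hj : j < N) : W N f j = 0 := by
  induction N generalizing f j with
  | zero => omega
  | succ N ih =>
    have h1 : W (N + 1) f = Pool.Agent.Helper203.Hardy.Mz (W N f) := by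
      unfold W
      rw [pow_succ']
      rfl
    rw [h1, Pool.Agent.Helper203.Hardy.Mz_apply]
    cases j with
    | zero => rfl
    | succ j => exact ih f j (by omega)

lemma W_high (N : ℕ) (f : HH) (n : ℕ) : W N f (N + n) = f n := by
  rw [← Ws_apply, Ws_W]

lemma W_Ws (N : ℕ) (a : HH) (ha : ∀ j < N, a j = 0) : W N (Ws N a) = a := by
  ext j
  rcases lt_or_ge j N with h | h
  · rw [W_low N _ j h, ha j h]
  · obtain ⟨n, rfl⟩ := Nat.exists_eq_add_of_le h
    rw [W_high, Ws_apply]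

lemma W_single (N j : ℕ) : W N (lp.single 2 j (1 : ℂ)) = (lp.single 2 (N + j) (1 : ℂ) : HH) := by
  ext k
  rcases lt_or_ge k N with h | h
  · rw [W_low N _ k h, lp.single_apply_ne _ _ _ (by omega)]
  · obtain ⟨n, rfl⟩ := Nat.exists_eq_add_of_le h
    rw [W_high]
    by_cases hn : n = j
    · rw [hn, lp.single_apply_self, lp.single_apply_self]
    · rw [lp.single_apply_ne _ _ _ hn, lp.single_apply_ne _ _ _ (by omega)]

lemma W_inj (N : ℕ) (f : HH) (h : W N f = 0) : f = 0 := by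
  rw [← Ws_W N f, h, map_zero]

/-- the projection on the first `N` coefficients is compact -/
lemma compact_P (N : ℕ) : IsCompactOperator (⇑(1 - W N * Ws N : HH →L[ℂ] HH)) := by
  let R : ℕ → (HH →L[ℂ] HH) := fun n =>
    (lp.evalCLM ℂ (fun _ : ℕ => ℂ) 2 n).smulRight (lp.single 2 n (1 : ℂ) : HH)
  have hR : (1 - W N * Ws N : HH →L[ℂ] HH) = ∑ n ∈ Finset.range N, R n := by
    ext f j
    have h1 : (∑ n ∈ Finset.range N, R n) f = ∑ n ∈ Finset.range N, f n • (lp.single 2 n (1 : ℂ) : HH) := by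
      rw [ContinuousLinearMap.sum_apply]
      rfl
    rw [h1, lp.coeFn_sum, Finset.sum_apply]
    have h2 : ((1 - W N * Ws N : HH →L[ℂ] HH) f) j = f j - W N (Ws N f) j := rfl
    rw [h2]
    rcases lt_or_ge j N with h | h
    · rw [W_low N _ j h, sub_zero, Finset.sum_eq_single j]
      · simp
      · intro i _ hi
        rw [lp.coeFn_smul, Pi.smul_apply, lp.single_apply_ne _ _ _ hi.symm, smul_zero]
      · intro h'
        exact absurd (Finset.mem_range.mpr h) h'
    · rw [Finset.sum_eq_zero]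
      · obtain ⟨n, rfl⟩ := Nat.exists_eq_add_of_le h
        rw [W_high, Ws_apply, sub_self]
      · intro i hi
        have : j ≠ i := by
          have := Finset.mem_range.mp hi
          omega
        rw [lp.coeFn_smul, Pi.smul_apply, lp.single_apply_ne _ _ _ this, smul_zero]
  rw [hR]
  apply compact_sum
  intro n
  have h1 : IsCompactOperator (⇑(ContinuousLinearMap.toSpanSingleton ℂ (lp.single 2 n (1 : ℂ) : HH))) :=
    isCompactOperator_of_locallyCompactSpace_rng _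
  have h2 := h1.comp_clm (lp.evalCLM ℂ (fun _ : ℕ => ℂ) 2 n)
  have h3 : (⇑(ContinuousLinearMap.toSpanSingleton ℂ (lp.single 2 n (1 : ℂ) : HH))
      ∘ ⇑(lp.evalCLM ℂ (fun _ : ℕ => ℂ) 2 n)) = ⇑(R n) := by
    ext a
    rfl
  rw [h3] at h2
  exact h2

lemma einv_of_unit {H : Type*} [NormedAddCommGroup H] [InnerProductSpace ℂ H] [CompleteSpace H]
    (A : H →L[ℂ] H) (h : IsUnit A) : EInv A := by
  obtain ⟨u, rfl⟩ := h
  refine ⟨↑u⁻¹, ?_, ?_⟩
  · rw [u.inv_mul, sub_self]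
    exact isCompactOperator_zero
  · rw [u.mul_inv, sub_self]
    exact isCompactOperator_zero

lemma einv_open {H : Type*} [NormedAddCommGroup H] [InnerProductSpace ℂ H] [CompleteSpace H]
    (T : H →L[ℂ] H) (μ : ℂ) (h : EInv (T - μ • (1 : H →L[ℂ] H))) :
    ∃ δ : ℝ, 0 < δ ∧ ∀ μ' : ℂ, ‖μ' - μ‖ < δ → EInv (T - μ' • (1 : H →L[ℂ] H)) := by
  obtain ⟨S, hS1, hS2⟩ := h
  refine ⟨(‖S‖ + 1)⁻¹, by positivity, fun μ' hμ' => ?_⟩
  have hlt : ‖(μ' - μ) • S‖ < 1 := by
    rw [norm_smul]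
    have h1 : 0 < ‖S‖ + 1 := by positivity
    calc ‖μ' - μ‖ * ‖S‖ ≤ ‖μ' - μ‖ * (‖S‖ + 1) := by
          apply mul_le_mul_of_nonneg_left _ (norm_nonneg _)
          linarith
      _ < (‖S‖ + 1)⁻¹ * (‖S‖ + 1) := by
          apply mul_lt_mul_of_pos_right hμ' h1
      _ = 1 := inv_mul_cancel₀ h1.ne'
  set u := Units.oneSub _ hlt with hu
  have hu' : (↑u : H →L[ℂ] H) = 1 - (μ' - μ) • S := rfl
  have hcomm : (↑u : H →L[ℂ] H) * S = S * ↑u := by
    rw [hu', sub_mul, mul_sub, one_mul, mul_one, smul_mul_assoc, mul_smul_comm]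
  have hcomm' : (↑u⁻¹ : H →L[ℂ] H) * S = S * ↑u⁻¹ := by
    calc (↑u⁻¹ : H →L[ℂ] H) * S = ↑u⁻¹ * S * (↑u * ↑u⁻¹) := by rw [u.mul_inv, mul_one]
      _ = ↑u⁻¹ * (S * ↑u) * ↑u⁻¹ := by simp only [mul_assoc]
      _ = ↑u⁻¹ * (↑u * S) * ↑u⁻¹ := by rw [hcomm]
      _ = (↑u⁻¹ * ↑u) * S * ↑u⁻¹ := by simp only [mul_assoc]
      _ = S * ↑u⁻¹ := by rw [u.inv_mul, one_mul]
  refine ⟨↑u⁻¹ * S, ?_, ?_⟩
  · have h1 : (↑u⁻¹ * S : H →L[ℂ] H) * (T - μ' • 1) - 1
        = ↑u⁻¹ * (S * (T - μ • 1) - 1) := by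
      have h2 : S * (T - μ' • (1 : H →L[ℂ] H)) = (S * (T - μ • 1) - 1) + ↑u := by
        rw [hu']
        simp only [mul_sub, mul_smul_comm, mul_one, sub_smul]
        abel
      rw [mul_assoc, h2, mul_add, u.inv_mul]
      abel
    rw [h1]
    exact hS1.clm_comp _
  · have h1 : (T - μ' • (1 : H →L[ℂ] H)) * (↑u⁻¹ * S) - 1
        = ((T - μ • 1) * S - 1) * ↑u⁻¹ := by
      have h2 : (T - μ' • (1 : H →L[ℂ] H)) * S = ((T - μ • 1) * S - 1) + ↑u := by
        rw [hu']
        simp only [sub_mul, smul_mul_assoc, one_mul, sub_smul]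
        abel
      rw [hcomm', ← mul_assoc, h2, add_mul, u.mul_inv]
      abel
    rw [h1]
    exact hS2.comp_clm _

lemma mem_spec_iff {H : Type*} [NormedAddCommGroup H] [InnerProductSpace ℂ H] [CompleteSpace H]
    (T : H →L[ℂ] H) (μ : ℂ) : μ ∈ spectrum ℂ T ↔ ¬ IsUnit (T - μ • (1 : H →L[ℂ] H)) := by
  rw [spectrum.mem_iff, Algebra.algebraMap_eq_smul_one, ← IsUnit.neg_iff, neg_sub]

lemma dist_pow_pos' (lam μ : ℂ) (hlam : ‖lam‖ < 1) (hμ0 : μ ≠ 0) :
    ∃ δ : ℝ, 0 < δ ∧ ∀ n : ℕ, lam ^ n ≠ μ → δ ≤ ‖lam ^ n - μ‖ := by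
  have hlim : Tendsto (fun n : ℕ => ‖lam ^ n - μ‖) atTop (𝓝 ‖(0 : ℂ) - μ‖) :=
    ((tendsto_pow_atTop_nhds_zero_of_norm_lt_one hlam).sub_const μ).norm
  have hpos : ‖μ‖ / 2 < ‖(0 : ℂ) - μ‖ := by
    rw [zero_sub, norm_neg]
    have := norm_pos_iff.mpr hμ0
    linarith
  obtain ⟨N, hN⟩ := eventually_atTop.mp (hlim.eventually (lt_mem_nhds hpos))
  have hfin : ∃ δ : ℝ, 0 < δ ∧ ∀ n < N, lam ^ n ≠ μ → δ ≤ ‖lam ^ n - μ‖ := by
    clear hN
    induction N with
    | zero => exact ⟨1, one_pos, fun n hn => absurd hn (Nat.not_lt_zero n)⟩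
    | succ N ih =>
      obtain ⟨δ, hδ, h⟩ := ih
      by_cases hN : lam ^ N = μ
      · refine ⟨δ, hδ, fun n hn hne => ?_⟩
        rcases Nat.lt_succ_iff_lt_or_eq.mp hn with h' | h'
        · exact h n h' hne
        · rw [h'] at hne
          exact absurd hN hne
      · have hN' : 0 < ‖lam ^ N - μ‖ := norm_pos_iff.mpr (sub_ne_zero.mpr hN)
        refine ⟨min δ ‖lam ^ N - μ‖, lt_min hδ hN', fun n hn hne => ?_⟩
        rcases Nat.lt_succ_iff_lt_or_eq.mp hn with h' | h'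
        · exact (min_le_left _ _).trans (h n h' hne)
        · rw [h']
          exact min_le_right _ _
  obtain ⟨δ, hδ, h⟩ := hfin
  refine ⟨min δ (‖μ‖ / 2), lt_min hδ (by have := norm_pos_iff.mpr hμ0; positivity), fun n hne => ?_⟩
  rcases lt_or_ge n N with h' | h'
  · exact (min_le_left _ _).trans (h n h' hne)
  · exact (min_le_right _ _).trans (hN n h').le

section
variable {φ : ℂ → ℂ} {T : HH →L[ℂ] HH}

/-- the compression to functions of high order -/
noncomputable def TN (T : HH →L[ℂ] HH) (N : ℕ) : HH →L[ℂ] HH := Ws N * T * W N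

lemma TN_comm (hd : DifferentiableOn ℂ φ (ball (0 : ℂ) 1))
    (hm : ∀ z : ℂ, ‖z‖ < 1 → ‖φ z‖ < 1) (h0 : φ 0 = 0)
    (hT : ∀ (a : HH) (z : ℂ), ‖z‖ < 1 → ev (T a) z = ev a (φ z)) (N : ℕ) (f : HH) :
    T (W N f) = W N (TN T N f) := by
  have h1 : TN T N f = Ws N (T (W N f)) := rfl
  rw [h1, W_Ws]
  exact (low_coeff hd hm h0 hT (W N f) N (fun j hj => W_low N f j hj)).1

/-- isolated points of the spectrum outside the disc are not in the essential spectrum -/
lemma einv_isolated (hd : DifferentiableOn ℂ φ (ball (0 : ℂ) 1))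
    (hm : ∀ z : ℂ, ‖z‖ < 1 → ‖φ z‖ < 1) (h0 : φ 0 = 0)
    (hs : ∀ z : ℂ, ‖z‖ < 1 → z ≠ 0 → ‖φ z‖ < ‖z‖)
    (hT : ∀ (a : HH) (z : ℂ), ‖z‖ < 1 → ev (T a) z = ev a (φ z))
    (r : ℝ) (hr : 0 ≤ r)
    (hspec : ∀ μ : ℂ, r < ‖μ‖ → (∀ n : ℕ, μ ≠ (deriv φ 0) ^ n) → IsUnit (T - μ • (1 : HH →L[ℂ] HH)))
    (μ0 : ℂ) (hμ0 : r < ‖μ0‖) : EInv (T - μ0 • (1 : HH →L[ℂ] HH)) := by
  have hlam := lam_lt hd h0 hs
  have hpos : 0 < ‖μ0‖ := hr.trans_lt hμ0
  have hne0 : μ0 ≠ 0 := norm_pos_iff.mp hpos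
  obtain ⟨δ, hδ, hδn⟩ := dist_pow_pos' (deriv φ 0) μ0 hlam hne0
  set ρ : ℝ := min δ (‖μ0‖ - r) / 2 with hρ
  have hmin : 0 < min δ (‖μ0‖ - r) := lt_min hδ (by linarith)
  have hρ0 : 0 < ρ := by positivity
  have hρ1 : ρ < δ := by
    have := min_le_left δ (‖μ0‖ - r)
    rw [hρ]
    linarith
  have hρ2 : ρ < ‖μ0‖ - r := by
    have := min_le_right δ (‖μ0‖ - r)
    rw [hρ]
    linarith
  obtain ⟨N, hN⟩ : ∃ N : ℕ, ‖deriv φ 0‖ ^ N < ‖μ0‖ := exists_pow_lt_of_lt_one hpos hlam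
  have hcomm := TN_comm hd hm h0 hT N
  -- the compression is invertible at the centre
  have hunit : IsUnit (TN T N - μ0 • (1 : HH →L[ℂ] HH)) := by
    apply iso_center (TN T N) μ0 ρ hρ0
    · intro a i ha j hj
      have h1 : TN T N a j = T (W N a) (N + j) := by
        show Ws N (T (W N a)) j = _
        rw [Ws_apply]
      rw [h1]
      apply (low_coeff hd hm h0 hT (W N a) (N + i) _).1 (N + j) (by omega)
      intro l hl
      rcases lt_or_ge l N with h | h
      · exact W_low N a l h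
      · obtain ⟨n, rfl⟩ := Nat.exists_eq_add_of_le h
        rw [W_high]
        exact ha n (by omega)
    · intro j
      have h1 : TN T N (lp.single 2 j (1 : ℂ)) j = (deriv φ 0) ^ (N + j) := by
        have h2 : TN T N (lp.single 2 j (1 : ℂ)) j = T (W N (lp.single 2 j (1 : ℂ))) (N + j) := by
          show Ws N (T (W N _)) j = _
          rw [Ws_apply]
        rw [h2, W_single]
        have h3 := (low_coeff hd hm h0 hT (lp.single 2 (N + j) (1 : ℂ)) (N + j) (by
          intro l hl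
          rw [lp.single_apply_ne _ _ _ hl.ne])).2
        rw [h3, lp.single_apply_self, mul_one]
      rw [h1]
      refine hρ1.trans_le (hδn (N + j) ?_)
      intro h
      have h4 : ‖μ0‖ ≤ ‖deriv φ 0‖ ^ N := by
        rw [← h, norm_pow]
        exact pow_le_pow_of_le_one (norm_nonneg _) hlam.le (by omega)
      linarith
    · intro μ hμ
      have hμr : r < ‖μ‖ := by
        have h1 : ‖μ0‖ - ‖μ‖ ≤ ‖μ0 - μ‖ := norm_sub_norm_le _ _
        rw [norm_sub_rev, hμ] at h1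
        linarith
      have hμn : ∀ n : ℕ, μ ≠ (deriv φ 0) ^ n := by
        intro n hn
        rw [hn] at hμ
        have h1 : (deriv φ 0) ^ n ≠ μ0 := by
          intro h
          rw [h, sub_self, norm_zero] at hμ
          linarith
        have := hδn n h1
        linarith
      have hu := hspec μ hμr hμn
      rw [ContinuousLinearMap.isUnit_iff_bijective] at hu ⊢
      constructor
      · intro x y hxy
        have h1 : (T - μ • (1 : HH →L[ℂ] HH)) (W N x) = (T - μ • (1 : HH →L[ℂ] HH)) (W N y) := by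
          show T (W N x) - μ • W N x = T (W N y) - μ • W N y
          have hxy' : TN T N x - μ • x = TN T N y - μ • y := hxy
          rw [hcomm, hcomm, ← map_smul, ← map_smul, ← map_sub, ← map_sub, hxy']
        have h2 := hu.1 h1
        rw [← Ws_W N x, h2, Ws_W]
      · intro F
        obtain ⟨G, hG⟩ := hu.2 (W N F)
        have hG' : T G - μ • G = W N F := hG
        have hGlow : ∀ n < N, G n = 0 := by
          apply order_of_preimage hd hm h0 hT μ hμn G N
          intro n hn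
          rw [hG']
          exact W_low N F n hn
        refine ⟨Ws N G, ?_⟩
        have h1 : G = W N (Ws N G) := (W_Ws N G hGlow).symm
        have h2 : W N (TN T N (Ws N G) - μ • Ws N G) = W N F := by
          rw [map_sub, map_smul, ← hcomm, ← h1]
          exact hG'
        have h3 := congrArg (Ws N) h2
        rw [Ws_W, Ws_W] at h3
        exact h3
  obtain ⟨u, hu⟩ := hunit
  have hWT : (T - μ0 • (1 : HH →L[ℂ] HH)) * W N = W N * ↑u := by
    ext1 f
    show T (W N f) - μ0 • W N f = W N ((↑u : HH →L[ℂ] HH) f)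
    rw [hu, hcomm]
    show _ = W N (TN T N f - μ0 • f)
    rw [map_sub, map_smul]
  have hWsW : Ws N * W N = 1 := by
    ext1 f
    exact Ws_W N f
  refine ⟨W N * ↑u⁻¹ * Ws N, ?_, ?_⟩
  · have h2 : ((W N * ↑u⁻¹ * Ws N) * (T - μ0 • (1 : HH →L[ℂ] HH)) - 1) * W N = 0 := by
      rw [sub_mul, mul_assoc (W N * ↑u⁻¹ * Ws N), hWT, one_mul]
      calc W N * ↑u⁻¹ * Ws N * (W N * ↑u) - W N
          = W N * ↑u⁻¹ * (Ws N * W N) * ↑u - W N := by simp only [mul_assoc]
        _ = 0 := by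
            rw [hWsW, mul_one, mul_assoc, u.inv_mul, mul_one, sub_self]
    generalize (W N * ↑u⁻¹ * Ws N) * (T - μ0 • (1 : HH →L[ℂ] HH)) - 1 = X at h2 ⊢
    have h1 : X = X * (1 - W N * Ws N) := by
      rw [mul_sub, mul_one, ← mul_assoc, h2, zero_mul, sub_zero]
    rw [h1]
    exact (compact_P N).clm_comp X
  · have h1 : (T - μ0 • (1 : HH →L[ℂ] HH)) * (W N * ↑u⁻¹ * Ws N) - 1 = -(1 - W N * Ws N) := by
      rw [← mul_assoc, ← mul_assoc, hWT, mul_assoc (W N), u.mul_inv, mul_one]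
      abel
    rw [h1]
    exact (compact_P N).neg

/-- essentially invertible composition operators are injective -/
lemma inj_of_einv (hm : ∀ z : ℂ, ‖z‖ < 1 → ‖φ z‖ < 1)
    (hT : ∀ (a : HH) (z : ℂ), ‖z‖ < 1 → ev (T a) z = ev a (φ z)) (S : HH →L[ℂ] HH)
    (hS : IsCompactOperator (⇑(S * T - 1))) (f : HH) (hf : T f = 0) : f = 0 := by
  have hker : ∀ n, T (W n f) = 0 := by
    intro n
    apply Pool.Agent.Helper203.Hardy.ev_injective
    intro z hz
    have hz' : ‖z‖ < 1 := by simpa using hz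
    have h1 : ev (T (W n f)) z = 0 := by
      rw [hT _ z hz', W_ev n f _ (hm z hz'), ← hT f z hz', hf]
      simp [ev]
    have h2 : Pool.Agent.Helper203.Hardy.ev (0 : HH) z = 0 := by
      simp [Pool.Agent.Helper203.Hardy.ev]
    rw [h2]
    exact h1
  obtain ⟨y, ψ, hψ, hy⟩ := subseq_of_compact hS (fun n => W n f) ‖f‖ (fun n => (W_norm n f).le)
  have h1 : ∀ n, (S * T - 1) (W n f) = - W n f := by
    intro n
    show S (T (W n f)) - W n f = _
    rw [hker, map_zero, zero_sub]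
  simp_rw [h1] at hy
  have hy0 : y = 0 := by
    ext j
    have h2 : Tendsto (fun n => (-(W (ψ n) f) : HH) j) atTop (𝓝 (y j)) :=
      ((lp.evalCLM ℂ (fun _ : ℕ => ℂ) 2 j).continuous.tendsto y).comp hy
    have h3 : Tendsto (fun n => (-(W (ψ n) f) : HH) j) atTop (𝓝 0) := by
      apply tendsto_const_nhds.congr'
      filter_upwards [eventually_gt_atTop j] with n hn
      have h4 : j < ψ n := hn.trans_le hψ.le_apply
      rw [lp.coeFn_neg, Pi.neg_apply, W_low _ _ _ h4, neg_zero]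
    exact tendsto_nhds_unique h2 h3
  have h5 : ‖y‖ = ‖f‖ := by
    refine tendsto_nhds_unique hy.norm ?_
    simp [W_norm]
  rw [hy0, norm_zero] at h5
  exact norm_eq_zero.mp h5.symm

/-- Q1 for symbols fixing the origin -/
theorem q1_zero (hd : DifferentiableOn ℂ φ (ball (0 : ℂ) 1))
    (hm : ∀ z : ℂ, ‖z‖ < 1 → ‖φ z‖ < 1) (h0 : φ 0 = 0)
    (hs : ∀ z : ℂ, ‖z‖ < 1 → z ≠ 0 → ‖φ z‖ < ‖z‖)
    (hT : ∀ (a : HH) (z : ℂ), ‖z‖ < 1 → ev (T a) z = ev a (φ z))
    (r : ℝ) (hr : 0 ≤ r)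
    (hspec : spectrum ℂ T = closedBall 0 r ∪ {μ | ∃ n : ℕ, 1 ≤ n ∧ μ = (deriv φ 0) ^ n} ∪ {1}) :
    {μ : ℂ | ¬ EInv (T - μ • (1 : HH →L[ℂ] HH))} = closedBall 0 r := by
  apply Set.Subset.antisymm
  · -- upper bound
    intro μ hμ
    by_contra hcon
    have hμr : r < ‖μ‖ := by simpa using hcon
    apply hμ
    apply einv_isolated hd hm h0 hs hT r hr _ μ hμr
    intro ν hν hνn
    by_contra hnu
    have h1 : ν ∈ spectrum ℂ T := (mem_spec_iff T ν).mpr hnu
    rw [hspec] at h1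
    rcases h1 with (h1 | ⟨n, -, h1⟩) | h1
    · have : ‖ν‖ ≤ r := by simpa using h1
      linarith
    · exact hνn n h1
    · exact hνn 0 (by rw [pow_zero]; exact h1)
  · rcases hr.eq_or_lt with h | hrpos
    · -- the case `r = 0`
      intro μ hμ
      rw [← h] at hμ
      have hμ0 : μ = 0 := by simpa using hμ
      rw [hμ0]
      show ¬ EInv (T - (0 : ℂ) • (1 : HH →L[ℂ] HH))
      rw [zero_smul, sub_zero]
      rintro ⟨S, hS1, hS2⟩
      obtain ⟨c, hc, hb⟩ := bddBelow_of_inj T S hS1 (inj_of_einv hm hT S hS1)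
      have hcount : (spectrum ℂ T).Countable := by
        rw [hspec, ← h]
        apply Set.Countable.union (Set.Countable.union _ _) (Set.countable_singleton _)
        · rw [closedBall_zero]
          exact Set.countable_singleton _
        · have : {μ : ℂ | ∃ n : ℕ, 1 ≤ n ∧ μ = (deriv φ 0) ^ n}
              ⊆ Set.range (fun n : ℕ => (deriv φ 0) ^ n) := by
            rintro _ ⟨n, -, rfl⟩
            exact ⟨n, rfl⟩
          exact (Set.countable_range _).mono this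
      have hdense : Dense (spectrum ℂ T)ᶜ := hcount.dense_compl ℝ
      obtain ⟨ν, hν1, hν2⟩ := hdense.exists_mem_open isOpen_ball
        (⟨0, mem_ball_self (by positivity)⟩ : (ball (0 : ℂ) (c / 2)).Nonempty)
      have hνn : ‖ν‖ < c / 2 := by simpa using hν2
      have hT0 : ¬ IsUnit T := by
        have h1 : (0 : ℂ) ∈ spectrum ℂ T := by
          rw [hspec]
          exact Or.inl (Or.inl (by simp [hr]))
        have := (mem_spec_iff T 0).mp h1
        rwa [zero_smul, sub_zero] at this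
      obtain ⟨g, hg, hg2⟩ := exists_orth_near T c hc hb hT0 ν hνn
      have hu : IsUnit (T - ν • (1 : HH →L[ℂ] HH)) := by
        by_contra h1
        exact hν1 ((mem_spec_iff T ν).mpr h1)
      rw [ContinuousLinearMap.isUnit_iff_bijective] at hu
      obtain ⟨x, hx⟩ := hu.2 g
      have h2 := hg2 x
      rw [hx] at h2
      exact hg (inner_self_eq_zero.mp h2)
    · -- the essential spectrum is closed and contains a dense subset
      set E : Set ℂ := {μ : ℂ | ¬ EInv (T - μ • (1 : HH →L[ℂ] HH))} with hE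
      have hclosed : IsClosed E := by
        rw [← isOpen_compl_iff, Metric.isOpen_iff]
        intro μ hμ
        have hμ' : EInv (T - μ • (1 : HH →L[ℂ] HH)) := by
          by_contra h
          exact hμ h
        obtain ⟨δ, hδ, h⟩ := einv_open T μ hμ'
        refine ⟨δ, hδ, fun ν hν => ?_⟩
        intro hνE
        exact hνE (h ν (by simpa [dist_eq_norm] using hν))
      set Z : Set ℂ := {0} ∪ Set.range (fun n : ℕ => (deriv φ 0) ^ n) with hZ
      have hZc : Z.Countable := (Set.countable_singleton _).union (Set.countable_range _)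
      have hdense : Dense Zᶜ := hZc.dense_compl ℝ
      have hsub : ball (0 : ℂ) r ∩ Zᶜ ⊆ E := by
        rintro μ ⟨hμ1, hμ2⟩ hcon
        have hμ0 : μ ≠ 0 := by
          intro h
          exact hμ2 (Or.inl h)
        have hμn : ∀ n : ℕ, μ ≠ (deriv φ 0) ^ n := by
          intro n h
          exact hμ2 (Or.inr ⟨n, h.symm⟩)
        have hu := thmA hd hm h0 hs hT μ hμ0 hμn hcon
        have h1 : μ ∈ spectrum ℂ T := by
          rw [hspec]
          exact Or.inl (Or.inl (ball_subset_closedBall hμ1))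
        exact (mem_spec_iff T μ).mp h1 hu
      have h2 : ball (0 : ℂ) r ⊆ E :=
        (hdense.open_subset_closure_inter isOpen_ball).trans (closure_minimal hsub hclosed)
      rw [← closure_ball (0 : ℂ) hrpos.ne']
      exact closure_minimal h2 hclosed

end
end Pool.Agent.Helper197.Ess
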